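import Pool.Agent.RPX.Defs
import Pool.Agent.RP.Ev
import Pool.Agent.RP.RunB
import Pool.Agent.Helper6.SP.Main

set_option autoImplicit false

/-!
RPX-Cmp. The composition: evaluation in polynomial time.

Plan: as `RP/Cmp.lean` (when it is landed) and `SP/Main.lean`, `SP/Test.lean`. The value of a formula `w` at the environment `E` as an element: `prF (E, [w])`
(`fp_prF`, `toQ_prF`), that of a program: `(valZ ρ x, 1)` (`toQ ((a, b), 1) = zq (a, b)`, `zq_valZ`, `fp_valZ`). `facV_eq`: `topV_code`, induction on the
formula `c.1` as in `outV_cd` (`SP/Main.lean`), the environment `envL` looked up at `j + 3` is the value of the leaf number `j` (`lookE_aux`,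
`List.mem_zipIdx_iff_getElem?`; both default to `0`). The polynomials are in the variables `ℕ ⊕ ℕ`, the point is
`Sum.elim (ptE E) (fun i => zq (x.getD i (0, 0)))`: `eval_rename`, `Sum.elim_comp_inl`, `Sum.elim_comp_inr`, `Fm.eval_poly`; `eval p (out X ρ)` by
`eval_val` of `RP/RunB.lean` (for natural numbers, then `eval_rename`).
-/

namespace Pool.Agent.RPX

open MvPolynomial N487b59b3 N68a2faeb Pool.Agent.Helper22 Pool.Agent.Helper6.WB
  Pool.Agent.Helper6.SP Pool.Agent.RP Pool.Agent.PQ

/-- a coded factor -/
abbrev FacC := Wd × (List Wd × List Rb)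

/-- the code of the factors -/
def cdF (L : List (List Fac)) : List (List FacC) := L.map fun p => p.map facCode

/-- all formulas at leaves -/
def fms (L : List (List FacC)) : List Wd := L.flatten.flatMap fun c => c.2.1

/-- all programs -/
def pgs (L : List (List FacC)) : List Rb := L.flatten.flatMap fun c => c.2.2

/-- all tokens of the first formulas -/
def toks1 (L : List (List FacC)) : Wd := L.flatten.flatMap fun c => c.1

/-- the environment of the values of the leaves -/
noncomputable def envL (p : En × List ZZ) (c : FacC) : En :=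
  ((c.2.1.map fun w => prF (p.1, [w])) ++ c.2.2.map fun ρ => ((valZ ρ p.2, 1) : El)).zipIdx.map
    fun q => (q.2 + 3, q.1)

/-- the value of a factor -/
noncomputable def facV (p : (En × List ZZ) × FacC) : ℚ := topV p.2.1 (envL p.1 p.2)

/-- looking up the position `j` in an enumerated list -/
private theorem cmp_look {β : Type} (l : List β) (F : β → El) (j : ℕ) :
    ptE (l.zipIdx.map fun q => (q.2 + 3, F q.1)) j = (l.map fun b => toQ (F b)).getD j 0 := by
  rw [ptE, lookE]
  by_cases hj : j < l.length
  · have hj' : j < (l.map fun b => toQ (F b)).length := by rw [List.length_map]; exact hj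
    rw [List.getD_eq_getElem _ _ hj', List.getElem_map]
    rw [lookE_aux _ (j + 3) (F l[j])]
    · intro q hq hqj
      obtain ⟨⟨w, i⟩, hw, rfl⟩ := List.mem_map.mp hq
      rw [List.mem_zipIdx_iff_getElem?] at hw
      simp only at hqj hw ⊢
      have h1 : i = j := by omega
      subst h1
      obtain ⟨h2, h3⟩ := List.getElem?_eq_some_iff.mp hw
      rw [← h3]
    · right
      refine ⟨(j + 3, F l[j]), ?_, rfl⟩
      rw [List.mem_map]
      refine ⟨(l[j], j), ?_, rfl⟩
      rw [List.mem_zipIdx_iff_getElem?]
      exact List.getElem?_eq_getElem hj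
  · rw [List.getD_eq_default _ _ (by rw [List.length_map]; exact not_lt.mp hj)]
    rw [lookE_aux _ (j + 3) e0]
    · simp [toQ, e0]
    · intro q hq hqj
      obtain ⟨⟨w, i⟩, hw, rfl⟩ := List.mem_map.mp hq
      rw [List.mem_zipIdx_iff_getElem?] at hw
      simp only at hqj hw
      obtain ⟨h2, h3⟩ := List.getElem?_eq_some_iff.mp hw
      omega
    · exact Or.inl rfl

/-- evaluation of a composition -/
private theorem cmp_ev (x : Vr → ℚ) (y : ℕ → ℚ) (P : ℕ → MvPolynomial Vr ℚ)
    (h : ∀ j, y j = eval x (P j)) (F : Fm) : F.ev y = eval x (aeval P F.poly) := by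
  induction F with
  | const q =>
    simp only [Fm.ev, Fm.poly]
    rw [← algebraMap_eq, AlgHom.commutes, algebraMap_eq, eval_C]
  | var i =>
    simp only [Fm.ev, Fm.poly, aeval_X]
    exact h i
  | add F G ihF ihG => simp only [Fm.ev, Fm.poly, map_add, ihF, ihG]
  | mul F G ihF ihG => simp only [Fm.ev, Fm.poly, map_mul, ihF, ihG]

private theorem cmp_getD (x : Vr → ℚ) (l : List (MvPolynomial Vr ℚ)) (j : ℕ) :
    (l.map fun f => eval x f).getD j 0 = eval x (l.getD j 0) := by
  by_cases hj : j < l.length
  · rw [List.getD_eq_getElem _ _ (by rw [List.length_map]; exact hj), List.getElem_map,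
      List.getD_eq_getElem _ _ hj]
  · rw [List.getD_eq_default _ _ (by rw [List.length_map]; exact not_lt.mp hj),
      List.getD_eq_default _ _ (not_lt.mp hj), map_zero]

private theorem cmp_leaves (E : En) (x : List ZZ) (c : Fac)
    (h : ∀ g ∈ c.2.2, g.length ≤ x.length) :
    (((facCode c).2.1.map fun w => prF (E, [w])) ++
        (facCode c).2.2.map fun ρ => ((valZ ρ x, 1) : El)).map (fun b => toQ b) =
      (leaves c).map fun f => eval (Sum.elim (ptE E) fun i => zq (x.getD i (0, 0))) f := by
  unfold leaves facCode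
  simp only [List.map_append, List.map_map]
  congr 1
  · apply List.map_congr_left
    intro g _
    simp only [Function.comp]
    rw [toQ_prF, eval_rename, Sum.elim_comp_inl]
    simp only [List.map_cons, List.map_nil, List.prod_cons, List.prod_nil, mul_one]
    rw [topV_code]
    exact (Fm.eval_poly _ _).symm
  · apply List.map_congr_left
    intro ρ hρ
    simp only [Function.comp]
    rw [eval_rename, Sum.elim_comp_inr, eval_val, ← zq_valZ ρ x (h ρ hρ)]
    simp [toQ, zq]

theorem facV_eq (E : En) (x : List ZZ) (c : Fac) (h : ∀ g ∈ c.2.2, g.length ≤ x.length) :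
    facV ((E, x), facCode c) =
      eval (Sum.elim (ptE E) fun i => zq (x.getD i (0, 0))) (facPoly c) := by
  unfold facV facPoly
  have h0 : (facCode c).1 = c.1.code := rfl
  simp only [h0]
  rw [topV_code]
  apply cmp_ev
  intro j
  unfold envL
  rw [cmp_look _ (fun b : El => b) j, cmp_leaves E x c h, cmp_getD]

private theorem fp_envL : FP fun p : (En × List ZZ) × FacC => envL p.1 p.2 := by
  have h1 : FP fun p : (En × List ZZ) × FacC => p.2.2.1.map fun w => prF (p.1.1, [w]) := by
    have h2 : FP fun r : ((En × List ZZ) × FacC) × Wd => prF (r.1.1.1, [r.2]) :=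
      fp_prF.comp (f := fun r : ((En × List ZZ) × FacC) × Wd => (r.1.1.1, [r.2])) (by fun_prop)
    exact fp_map (by fun_prop) h2
  have h3 : FP fun p : (En × List ZZ) × FacC =>
      p.2.2.2.map fun ρ => ((valZ ρ p.1.2, 1) : El) := by
    have h4 : FP fun r : ((En × List ZZ) × FacC) × Rb => ((valZ r.2 r.1.1.2, 1) : El) :=
      FP.pair (fp_valZ (by fun_prop) (by fun_prop)) (FP.const 1)
    exact fp_map (by fun_prop) h4
  have h5 : FP fun p : (En × List ZZ) × FacC =>
      ((p.2.2.1.map fun w => prF (p.1.1, [w])) ++
        p.2.2.2.map fun ρ => ((valZ ρ p.1.2, 1) : El)).zipIdx := fp_zipIdx (FP.append h1 h3)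
  have h6 : FP fun r : ((En × List ZZ) × FacC) × (El × ℕ) => ((r.2.2 + 3, r.2.1) : ℕ × El) :=
    FP.pair (Pool.Agent.Helper6.WB.FP.natAdd (by fun_prop) (FP.const 3)) (by fun_prop)
  exact fp_map h5 h6

theorem fq_facV : FQ facV :=
  fq_topV (f := fun p : (En × List ZZ) × FacC => p.2.1)
    (g := fun p : (En × List ZZ) × FacC => envL p.1 p.2) (by fun_prop) fp_envL

theorem fq_proV : FQ fun p : (En × List ZZ) × List FacC =>
    (p.2.map fun c => facV (p.1, c)).prod :=
  FQ.listProd fq_facV

/-- the value of a product, as an element -/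
noncomputable def proE : (En × List ZZ) × List FacC → El := fq_proV.choose

/-- the environment of the values of the products -/
noncomputable def envQ (p : En × List ZZ) (L : List (List FacC)) : En :=
  L.zipIdx.map fun q => (q.2 + 3, proE (p, q.1))

/-- the value of the composition -/
noncomputable def outQ (p : (En × List ZZ) × (Wd × List (List FacC))) : ℚ :=
  topV p.2.1 (envQ p.1 p.2.2)

/-- the composition -/
noncomputable def cmpR (Q : Fm) (L : List (List Fac)) : MvPolynomial Vr ℚ :=
  aeval (fun j => (L.map fun p => (p.map facPoly).prod).getD j 0) Q.poly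

private theorem fp_proE : FP proE := fq_proV.choose_spec.1

private theorem toQ_proE (p : (En × List ZZ) × List FacC) :
    toQ (proE p) = (p.2.map fun c => facV (p.1, c)).prod := fq_proV.choose_spec.2.2 p

theorem outQ_eq (E : En) (x : List ZZ) (Q : Fm) (L : List (List Fac))
    (h : ∀ g ∈ pgs (cdF L), g.length ≤ x.length) :
    outQ ((E, x), (Q.code, cdF L)) =
      eval (Sum.elim (ptE E) fun i => zq (x.getD i (0, 0))) (cmpR Q L) := by
  unfold outQ cmpR
  rw [topV_code]
  apply cmp_ev
  intro j
  unfold envQ
  rw [cmp_look (cdF L) (fun b => proE ((E, x), b)) j, ← cmp_getD]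
  congr 1
  unfold cdF
  simp only [List.map_map]
  apply List.map_congr_left
  intro p hp
  simp only [Function.comp]
  rw [toQ_proE, map_list_prod, List.map_map, List.map_map]
  congr 1
  apply List.map_congr_left
  intro c hc
  simp only [Function.comp]
  apply facV_eq
  intro g hg
  apply h
  unfold pgs cdF
  rw [List.mem_flatMap]
  refine ⟨facCode c, ?_, hg⟩
  rw [List.mem_flatten]
  exact ⟨p.map facCode, List.mem_map_of_mem hp, List.mem_map_of_mem hc⟩

private theorem fp_envQ : FP fun p : (En × List ZZ) × List (List FacC) => envQ p.1 p.2 := by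
  have h1 : FP fun r : ((En × List ZZ) × List (List FacC)) × (List FacC × ℕ) =>
      ((r.2.2 + 3, proE (r.1.1, r.2.1)) : ℕ × El) :=
    FP.pair (Pool.Agent.Helper6.WB.FP.natAdd (by fun_prop) (FP.const 3))
      (fp_proE.comp (f := fun r : ((En × List ZZ) × List (List FacC)) × (List FacC × ℕ) =>
        (r.1.1, r.2.1)) (by fun_prop))
  exact fp_map (fp_zipIdx FP.snd) h1

theorem fq_outQ : FQ outQ :=
  fq_topV (f := fun p : (En × List ZZ) × (Wd × List (List FacC)) => p.2.1)
    (g := fun p : (En × List ZZ) × (Wd × List (List FacC)) => envQ p.1 p.2.2) (by fun_prop)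
    (fp_envQ.comp (f := fun p : (En × List ZZ) × (Wd × List (List FacC)) => (p.1, p.2.2))
      (by fun_prop))

end Pool.Agent.RPX
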