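import Pool.Agent.RPX.Cmp
import Pool.Agent.RP.Dsc

set_option autoImplicit false

/-!
RPX-CmpD. The composition: membership in the algebra and degree.

Plan: as `cmp_mem`, `deg_cmp` in `SP/Main.lean` and `RP/Cmp.lean`. Leaves: `(rename Sum.inl g.poly).totalDegree ≤ g.code.length` (`totalDegree_rename_le`,
`Fm.totalDegree_poly`, `size_le_code`), which is at most `(toks2 ..).length`; `(rename Sum.inr (val ρ)).totalDegree ≤ n * D` (`totalDegree_val`, `length_input`,
`CL_input`). Then `(facPoly c).totalDegree ≤ c.1.code.length * d` by induction on the formula with `Fm.size`, the products by the number of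
tokens `toks1`, the outer formula in the same way.
-/

namespace Pool.Agent.RPX

open MvPolynomial N487b59b3 N68a2faeb Pool.Agent.Helper22 Pool.Agent.Helper6.WB
  Pool.Agent.Helper6.SP Pool.Agent.RP Pool.Agent.PQ

/-- unary bound for the degrees of the leaves -/
def dL (L : List (List FacC)) : List Bool :=
  ((fms L).flatten.map fun _ => true) ++ un ((nL (pgs L)).length * (DL (pgs L)).length)

/-- unary bound for the degree of the composition -/
def dQ (p : Wd × List (List FacC)) : List Bool :=
  un ((p.1.map fun _ => true).length *
    (un (((toks1 p.2).map fun _ => true).length * (dL p.2).length)).length)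

theorem cmpR_mem (Q : Fm) (L : List (List Fac)) : cmpR Q L ∈
    Algebra.adjoin ℚ (Set.range fun i => ((L.get i).map facPoly).prod) := by
  rw [cmpR]
  induction Q with
  | const q =>
    simp only [Fm.poly]
    rw [← algebraMap_eq, AlgHom.commutes]
    exact Subalgebra.algebraMap_mem _ _
  | var i =>
    simp only [Fm.poly, aeval_X]
    by_cases h : i < L.length
    · rw [List.getD_eq_getElem _ _ (by rw [List.length_map]; exact h), List.getElem_map]
      exact Algebra.subset_adjoin ⟨⟨i, h⟩, by simp only [List.get_eq_getElem]⟩
    · rw [List.getD_eq_default _ _ (by rw [List.length_map]; exact not_lt.mp h)]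
      exact Subalgebra.zero_mem _
  | add F G ihF ihG =>
    simp only [Fm.poly, map_add]
    exact Subalgebra.add_mem _ ihF ihG
  | mul F G ihF ihG =>
    simp only [Fm.poly, map_mul]
    exact Subalgebra.mul_mem _ ihF ihG

private theorem deg_ev (Q : Fm) (f : ℕ → MvPolynomial Vr ℚ) {D : ℕ}
    (hf : ∀ j, (f j).totalDegree ≤ D) : (aeval f Q.poly).totalDegree ≤ Q.size * D := by
  induction Q with
  | const q =>
    simp only [Fm.poly]
    rw [← algebraMap_eq, AlgHom.commutes, algebraMap_eq, totalDegree_C]
    exact Nat.zero_le _
  | var i =>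
    simp only [Fm.poly, aeval_X, Fm.size, one_mul]
    exact hf i
  | add F G ihF ihG =>
    simp only [Fm.poly, map_add, Fm.size, Nat.add_mul]
    exact (totalDegree_add _ _).trans (max_le (ihF.trans (Nat.le_add_right _ _))
      (ihG.trans (Nat.le_add_left _ _)))
  | mul F G ihF ihG =>
    simp only [Fm.poly, map_mul, Fm.size, Nat.add_mul]
    exact (totalDegree_mul _ _).trans (Nat.add_le_add ihF ihG)

private theorem deg_getD {l : List (MvPolynomial Vr ℚ)} {D : ℕ}
    (h : ∀ f ∈ l, f.totalDegree ≤ D) (j : ℕ) : (l.getD j 0).totalDegree ≤ D := by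
  by_cases hj : j < l.length
  · rw [List.getD_eq_getElem _ _ hj]
    exact h _ (List.getElem_mem _)
  · rw [List.getD_eq_default _ _ (not_lt.mp hj), totalDegree_zero]
    exact Nat.zero_le _

private theorem flatten_cdF (L : List (List Fac)) : (cdF L).flatten = L.flatten.map facCode := by
  unfold cdF
  rw [List.map_flatten]

private theorem deg_leaf {L : List (List Fac)} {c : Fac} (hc : c ∈ L.flatten)
    {f : MvPolynomial Vr ℚ} (hf : f ∈ leaves c) : f.totalDegree ≤ (dL (cdF L)).length := by
  have hcode : facCode c ∈ (cdF L).flatten := by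
    rw [flatten_cdF]
    exact List.mem_map_of_mem hc
  have hlen : (dL (cdF L)).length =
      (fms (cdF L)).flatten.length + (nL (pgs (cdF L))).length * (DL (pgs (cdF L))).length := by
    rw [dL, List.length_append, List.length_map, un_length]
  rw [hlen]
  unfold leaves at hf
  rcases List.mem_append.1 hf with h | h
  · obtain ⟨g, hg, rfl⟩ := List.mem_map.1 h
    have h1 : g.code ∈ fms (cdF L) := by
      unfold fms
      rw [List.mem_flatMap]
      exact ⟨facCode c, hcode, List.mem_map_of_mem hg⟩
    have h2 : g.code.length ≤ (fms (cdF L)).flatten.length :=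
      (List.sublist_flatten_of_mem h1).length_le
    have h3 := totalDegree_rename_le (Sum.inl : ℕ → Vr) g.poly
    have h4 := (Fm.totalDegree_poly g).trans (size_le_code g)
    omega
  · obtain ⟨ρ, hρ, rfl⟩ := List.mem_map.1 h
    have h1 : ρ ∈ pgs (cdF L) := by
      unfold pgs
      rw [List.mem_flatMap]
      exact ⟨facCode c, hcode, hρ⟩
    have h2 := totalDegree_val (DL (pgs (cdF L))).length ρ (CL_input h1)
    have h3 := totalDegree_rename_le (Sum.inr : ℕ → Vr) (val ρ)
    have h4 : ρ.length * (DL (pgs (cdF L))).length ≤
        (nL (pgs (cdF L))).length * (DL (pgs (cdF L))).length :=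
      Nat.mul_le_mul_right _ (length_input h1)
    omega

private theorem deg_fac {L : List (List Fac)} {c : Fac} (hc : c ∈ L.flatten) :
    (facPoly c).totalDegree ≤ c.1.code.length * (dL (cdF L)).length := by
  unfold facPoly
  refine (deg_ev c.1 _ (deg_getD fun f hf => deg_leaf hc hf)).trans ?_
  exact Nat.mul_le_mul_right _ (size_le_code c.1)

private theorem deg_pro {D : ℕ} (p : List Fac)
    (h : ∀ c ∈ p, (facPoly c).totalDegree ≤ c.1.code.length * D) :
    ((p.map facPoly).prod).totalDegree ≤
      (((p.map facCode).map fun c => c.1).flatten).length * D := by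
  induction p with
  | nil => simp
  | cons c p ih =>
    have h1 := ih fun c' hc' => h c' (List.mem_cons_of_mem _ hc')
    have h2 := h c (List.mem_cons_self ..)
    rw [List.map_cons, List.prod_cons, List.map_cons, List.map_cons, List.flatten_cons,
      List.length_append, Nat.add_mul]
    exact (totalDegree_mul _ _).trans (Nat.add_le_add h2 h1)

private theorem deg_nth (L : List (List Fac)) (j : ℕ) :
    ((L.map fun p : List Fac => (p.map facPoly).prod).getD j 0).totalDegree ≤
      (toks1 (cdF L)).length * (dL (cdF L)).length := by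
  refine deg_getD (fun f hf => ?_) j
  obtain ⟨p, hp, rfl⟩ := List.mem_map.1 hf
  refine (deg_pro (D := (dL (cdF L)).length) p fun c hc =>
    deg_fac (List.mem_flatten.2 ⟨p, hp, hc⟩)).trans (Nat.mul_le_mul_right _ ?_)
  have h1 : p.map facCode ∈ cdF L := by
    unfold cdF
    exact List.mem_map_of_mem hp
  have h2 := (List.Sublist.map (fun c : FacC => c.1)
    (List.sublist_flatten_of_mem h1)).flatten.length_le
  unfold toks1
  rw [List.flatMap_def]
  exact h2

theorem totalDegree_cmpR (Q : Fm) (L : List (List Fac)) :
    (cmpR Q L).totalDegree ≤ (dQ (Q.code, cdF L)).length := by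
  have hlen : (dQ (Q.code, cdF L)).length =
      Q.code.length * ((toks1 (cdF L)).length * (dL (cdF L)).length) := by
    rw [dQ, un_length, List.length_map, un_length, List.length_map]
  rw [hlen, cmpR]
  exact (deg_ev Q _ (deg_nth L)).trans (Nat.mul_le_mul_right _ (size_le_code Q))

end Pool.Agent.RPX
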