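import Pool.Agent.RP.Defs

set_option autoImplicit false

/-!
Two kinds of variables, formulas of bounded depth and bounded occurrence, and the input: factors
computed by formulas over leaves which are formulas in the variables of the first kind or
read-once oblivious programs in the variables of the second kind.
-/

namespace Pool.Agent.RPX

open MvPolynomial Pool.Agent.Helper6.WB Pool.Agent.RP

/-- the variables: `Sum.inl i` is the variable `x_i` and `Sum.inr j` is the variable `y_j` -/
abbrev Vr := ℕ ⊕ ℕ

/-- `Occ κ 𝓛 Δ f`: the polynomial `f` is computed by a formula of depth `Δ` over leaves in `𝓛`. The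
gates are
* sums of any number of polynomials such that every variable occurs in at most `κ` of them;
* products of powers, with arbitrary exponents, of any number of polynomials such that every
  variable occurs in at most `κ` of them;
* arbitrary polynomials, of any degree, in at most `κ` polynomials. -/
inductive Occ (κ : ℕ) (𝓛 : MvPolynomial Vr ℚ → Prop) : ℕ → MvPolynomial Vr ℚ → Prop
  | leaf {f : MvPolynomial Vr ℚ} (hf : 𝓛 f) : Occ κ 𝓛 0 f
  | sum {Δ m : ℕ} (b : Fin m → MvPolynomial Vr ℚ) (hb : ∀ l, Occ κ 𝓛 Δ (b l))
      (hκ : ∀ v, (Finset.univ.filter fun l => v ∈ (b l).vars).card ≤ κ) :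
      Occ κ 𝓛 (Δ + 1) (∑ l, b l)
  | prod {Δ m : ℕ} (b : Fin m → MvPolynomial Vr ℚ) (hb : ∀ l, Occ κ 𝓛 Δ (b l))
      (hκ : ∀ v, (Finset.univ.filter fun l => v ∈ (b l).vars).card ≤ κ) (e : Fin m → ℕ) :
      Occ κ 𝓛 (Δ + 1) (∏ l, b l ^ e l)
  | comp {Δ m : ℕ} (b : Fin m → MvPolynomial Vr ℚ) (hb : ∀ l, Occ κ 𝓛 Δ (b l))
      (hm : m ≤ κ) (p : MvPolynomial (Fin m) ℚ) : Occ κ 𝓛 (Δ + 1) (aeval b p)

/-- a factor: a formula, a list of formulas in the variables `x_i` and a list of programs in the
variables `y_j` -/
abbrev Fac := Fm × (List Fm × List Rb)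

/-- the polynomials at the leaves: those of the formulas, then those of the programs -/
noncomputable def leaves (c : Fac) : List (MvPolynomial Vr ℚ) :=
  c.2.1.map (fun g => rename Sum.inl g.poly) ++ c.2.2.map fun ρ => rename Sum.inr (val ρ)

/-- the polynomial of a factor: the first formula, its variable number `j` replaced by the leaf
number `j` -/
noncomputable def facPoly (c : Fac) : MvPolynomial Vr ℚ :=
  aeval (fun j => (leaves c).getD j 0) c.1.poly

/-- the code of a factor -/
def facCode (c : Fac) : List (ℕ × ℚ) × (List (List (ℕ × ℚ)) × List Rb) :=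
  (c.1.code, (c.2.1.map Fm.code, c.2.2))

/-- The formulas among the leaves read every variable at most `r` times, the programs are tame,
and the polynomial of the factor is computed by a formula of depth `Δ` and occurrence `κ` over the
leaves. -/
def Good (κ k r t Δ : ℕ) (c : Fac) : Prop :=
  (∀ g ∈ c.2.1, ∀ i, g.reads i ≤ r) ∧ (∀ ρ ∈ c.2.2, Tame k t ρ) ∧
    Occ κ (fun f => f ∈ leaves c) Δ (facPoly c)

end Pool.Agent.RPX
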