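import Pool.Agent.Helper6.SP.LM
import Pool.Agent.Helper6.SP.Hit

set_option autoImplicit false

/-!
RPX-DerF. Derivatives of formulas: polynomials, variables, number of reads, substitutions (pure mathematics).

Plan: everything by induction on the formula. `dF j F = const 0` if `j ∉ F.vars` (auxiliary lemma), `pderiv_eq_zero_of_notMem_vars` and
`vars_poly` (`SP/Hit.lean`). `reads_dF`: with `reads_eq_zero`, `one_le_reads` (`SP/LocM.lean`), `reads_of_vars_subset` (`WB/LocMax.lean`):
auxiliary lemmas `(add F G).reads i ≤ F.reads i + G.reads i`, the same for `mul`. If `F.vars ∪ G.vars = {i}` then `(add F G).reads i = 1` and the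
derivative has `vars ⊆ {i}`, hence at most one read; if `F.vars ∪ G.vars = {j}`, `j ≠ i`, then `i` is not a variable of the derivative;
otherwise `reads` is additive for both `i` and `j` (unfold `Fm.reads`; mind the case that only one of the two unions is a singleton) and
`R_F r_F + r_G + r_F + R_G r_G ≤ (R_F + R_G) (r_F + r_G)` for `R_F, R_G ≥ 1`. `reads_dCs`: induction on `V` with `r ^ (2 ^ m) * r ^ (2 ^ m) = r ^ (2 ^ (m + 1))`.
`pderiv_subst`: if `σ j` is defined then `j` is not a variable of `F.subst σ`; otherwise induction (the cases `j ∉ F.vars`: `j ∉ (F.subst σ).vars`,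
`vars_subst`).
-/

namespace Pool.Agent.RPX

open MvPolynomial Pool.Agent.Helper6.WB Pool.Agent.Helper6.SP

/-- the derivative of a formula -/
def dF (j : ℕ) : Fm → Fm
  | Fm.const _ => Fm.const 0
  | Fm.var i => if i = j then Fm.const 1 else Fm.const 0
  | Fm.add F G => if j ∈ F.vars then (if j ∈ G.vars then Fm.add (dF j F) (dF j G) else dF j F)
      else dF j G
  | Fm.mul F G => if j ∈ F.vars then
      (if j ∈ G.vars then Fm.add (Fm.mul (dF j F) G) (Fm.mul F (dF j G)) else Fm.mul (dF j F) G)
      else (if j ∈ G.vars then Fm.mul F (dF j G) else Fm.const 0)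

/-- the derivative with respect to the variable with the code `c`; no change for `c < 3` -/
def dC (c : ℕ) (F : Fm) : Fm := if 3 ≤ c then dF (c - 3) F else F

/-- iterated derivatives -/
def dCs (V : List ℕ) (F : Fm) : Fm := V.foldr dC F

private theorem dF_notMem {j : ℕ} {F : Fm} (h : j ∉ F.vars) : dF j F = Fm.const 0 := by
  induction F with
  | const q => rfl
  | var i =>
    have hij : ¬ i = j := by
      intro e
      exact h (by simp [Fm.vars, e])
    simp only [dF]
    rw [if_neg hij]
  | add F G ihF ihG =>
    simp only [Fm.vars, Finset.mem_union, not_or] at h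
    simp only [dF]
    rw [if_neg h.1]
    exact ihG h.2
  | mul F G ihF ihG =>
    simp only [Fm.vars, Finset.mem_union, not_or] at h
    simp only [dF]
    rw [if_neg h.1, if_neg h.2]

private theorem pderiv_zero_of_vars {j : ℕ} {F : Fm} (h : j ∉ F.vars) :
    pderiv j F.poly = 0 :=
  pderiv_eq_zero_of_notMem_vars (fun h' => h (vars_poly F h'))

theorem poly_dF (j : ℕ) (F : Fm) : (dF j F).poly = pderiv j F.poly := by
  induction F with
  | const q => simp [dF, Fm.poly]
  | var i =>
    by_cases h : i = j
    · subst h
      simp [dF, Fm.poly]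
    · simp [dF, Fm.poly, h, pderiv_X_of_ne h]
  | add F G ihF ihG =>
    simp only [dF, Fm.poly, map_add]
    by_cases hF : j ∈ F.vars
    · by_cases hG : j ∈ G.vars
      · rw [if_pos hF, if_pos hG]
        simp only [Fm.poly, ihF, ihG]
      · rw [if_pos hF, if_neg hG, pderiv_zero_of_vars hG, add_zero, ihF]
    · rw [if_neg hF, pderiv_zero_of_vars hF, zero_add, ihG]
  | mul F G ihF ihG =>
    simp only [dF, Fm.poly, pderiv_mul]
    by_cases hF : j ∈ F.vars
    · by_cases hG : j ∈ G.vars
      · rw [if_pos hF, if_pos hG]
        simp only [Fm.poly, ihF, ihG]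
      · rw [if_pos hF, if_neg hG, pderiv_zero_of_vars hG, mul_zero, add_zero]
        simp only [Fm.poly, ihF]
    · by_cases hG : j ∈ G.vars
      · rw [if_neg hF, if_pos hG, pderiv_zero_of_vars hF, zero_mul, zero_add]
        simp only [Fm.poly, ihG]
      · rw [if_neg hF, if_neg hG, pderiv_zero_of_vars hF, pderiv_zero_of_vars hG, zero_mul,
          mul_zero, add_zero]
        simp [Fm.poly]

theorem vars_dF (j : ℕ) (F : Fm) : (dF j F).vars ⊆ F.vars := by
  induction F with
  | const q => exact subset_rfl
  | var i =>
    simp only [dF]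
    split_ifs <;> simp [Fm.vars]
  | add F G ihF ihG =>
    simp only [dF]
    split_ifs
    · exact Finset.union_subset_union ihF ihG
    · exact ihF.trans Finset.subset_union_left
    · exact ihG.trans Finset.subset_union_right
  | mul F G ihF ihG =>
    simp only [dF]
    split_ifs
    · refine Finset.union_subset ?_ ?_
      · exact Finset.union_subset_union ihF subset_rfl
      · exact Finset.union_subset_union subset_rfl ihG
    · exact Finset.union_subset_union ihF subset_rfl
    · exact Finset.union_subset_union subset_rfl ihG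
    · exact Finset.empty_subset _

private theorem reads_add_le (F G : Fm) (i : ℕ) :
    (Fm.add F G).reads i ≤ F.reads i + G.reads i := by
  simp only [Fm.reads]
  split_ifs with h
  · have hi : i ∈ F.vars ∪ G.vars := by rw [h]; exact Finset.mem_singleton_self i
    rcases Finset.mem_union.1 hi with h1 | h1
    · have := one_le_reads h1
      omega
    · have := one_le_reads h1
      omega
  · exact le_rfl

private theorem reads_mul_le (F G : Fm) (i : ℕ) :
    (Fm.mul F G).reads i ≤ F.reads i + G.reads i := by
  simp only [Fm.reads]
  split_ifs with h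
  · have hi : i ∈ F.vars ∪ G.vars := by rw [h]; exact Finset.mem_singleton_self i
    rcases Finset.mem_union.1 hi with h1 | h1
    · have := one_le_reads h1
      omega
    · have := one_le_reads h1
      omega
  · exact le_rfl

/-- the induction step common to both inner nodes -/
private theorem reads_step {F G H D : Fm} {i j : ℕ} (hv : H.vars = F.vars ∪ G.vars)
    (hr : ∀ i, ¬ F.vars ∪ G.vars = {i} → H.reads i = F.reads i + G.reads i)
    (hD : D.vars ⊆ H.vars) (hj : j ∈ H.vars)
    (hle : D.reads i ≤ (F.reads j + G.reads j) * (F.reads i + G.reads i)) :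
    D.reads i ≤ H.reads j * H.reads i := by
  by_cases h1 : F.vars ∪ G.vars = {i}
  · have h2 : D.reads i ≤ 1 := Fm.reads_of_vars_subset (by rw [← h1, ← hv]; exact hD)
    have h3 := one_le_reads hj
    have hi : i ∈ H.vars := by rw [hv, h1]; exact Finset.mem_singleton_self i
    have h4 := one_le_reads hi
    nlinarith
  · by_cases h2 : F.vars ∪ G.vars = {j}
    · have hi : i ∉ H.vars := by
        rw [hv, h2]
        intro h3
        rw [Finset.mem_singleton] at h3
        subst h3
        exact h1 h2
      rw [reads_eq_zero (fun h => hi (hD h))]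
      exact Nat.zero_le _
    · rw [hr i h1, hr j h2]
      exact hle

theorem reads_dF (i j : ℕ) (F : Fm) : (dF j F).reads i ≤ F.reads j * F.reads i := by
  induction F with
  | const q => simp [dF, Fm.reads]
  | var k =>
    simp only [dF]
    split_ifs <;> simp [Fm.reads]
  | add F G ihF ihG =>
    by_cases hj : j ∈ (Fm.add F G).vars
    · refine reads_step (F := F) (G := G) rfl (fun i hi => by simp only [Fm.reads]; rw [if_neg hi])
        (vars_dF j _) hj ?_
      simp only [dF]
      have e : (F.reads j + G.reads j) * (F.reads i + G.reads i) =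
          F.reads j * F.reads i + G.reads j * G.reads i +
            (F.reads j * G.reads i + G.reads j * F.reads i) := by ring
      split_ifs
      · have := reads_add_le (dF j F) (dF j G) i
        omega
      · omega
      · omega
    · rw [dF_notMem hj]
      simp [Fm.reads]
  | mul F G ihF ihG =>
    by_cases hj : j ∈ (Fm.mul F G).vars
    · refine reads_step (F := F) (G := G) rfl (fun i hi => by simp only [Fm.reads]; rw [if_neg hi])
        (vars_dF j _) hj ?_
      simp only [dF]
      have e : (F.reads j + G.reads j) * (F.reads i + G.reads i) =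
          F.reads j * F.reads i + G.reads j * G.reads i +
            (F.reads j * G.reads i + G.reads j * F.reads i) := by ring
      split_ifs with hF hG hG
      · have h1 := reads_add_le (Fm.mul (dF j F) G) (Fm.mul F (dF j G)) i
        have h2 := reads_mul_le (dF j F) G i
        have h3 := reads_mul_le F (dF j G) i
        have h4 : G.reads i ≤ F.reads j * G.reads i :=
          Nat.le_mul_of_pos_left _ (one_le_reads hF)
        have h5 : F.reads i ≤ G.reads j * F.reads i :=
          Nat.le_mul_of_pos_left _ (one_le_reads hG)
        omega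
      · have h2 := reads_mul_le (dF j F) G i
        have h4 : G.reads i ≤ F.reads j * G.reads i :=
          Nat.le_mul_of_pos_left _ (one_le_reads hF)
        omega
      · have h3 := reads_mul_le F (dF j G) i
        have h5 : F.reads i ≤ G.reads j * F.reads i :=
          Nat.le_mul_of_pos_left _ (one_le_reads hG)
        omega
      · simp [Fm.reads]
    · rw [dF_notMem hj]
      simp [Fm.reads]

private theorem vars_dC (c : ℕ) (F : Fm) : (dC c F).vars ⊆ F.vars := by
  unfold dC
  split_ifs
  · exact vars_dF _ F
  · exact subset_rfl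

theorem vars_dCs (V : List ℕ) (F : Fm) : (dCs V F).vars ⊆ F.vars := by
  induction V with
  | nil => exact subset_rfl
  | cons c V ih => exact (vars_dC c (dCs V F)).trans ih

theorem reads_dCs {r : ℕ} (hr : 1 ≤ r) (V : List ℕ) (F : Fm) (h : ∀ i, F.reads i ≤ r) (i : ℕ) :
    (dCs V F).reads i ≤ r ^ (2 ^ V.length) := by
  induction V generalizing i with
  | nil =>
    simpa [dCs] using h i
  | cons c V ih =>
    have e : dCs (c :: V) F = dC c (dCs V F) := rfl
    rw [e]
    have h2 : r ^ 2 ^ (c :: V).length = r ^ 2 ^ V.length * r ^ 2 ^ V.length := by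
      rw [List.length_cons, ← pow_add]
      congr 1
      rw [pow_succ]
      ring
    rw [h2]
    unfold dC
    split_ifs
    · exact (reads_dF i (c - 3) (dCs V F)).trans (Nat.mul_le_mul (ih _) (ih _))
    · have h3 : 1 ≤ r ^ 2 ^ V.length := Nat.one_le_pow _ _ hr
      have h4 := ih i
      nlinarith

private theorem subst_notMem {j : ℕ} {σ : ℕ → Option ℚ} (h : σ j ≠ none) (F : Fm) :
    j ∉ (F.subst σ).vars := by
  induction F with
  | const q => simp [Fm.subst, Fm.vars]
  | var i =>
    by_cases hi : i = j
    · subst hi
      obtain ⟨q, hq⟩ := Option.ne_none_iff_exists'.1 h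
      simp [Fm.subst, hq, Fm.vars]
    · cases hq : σ i with
      | none =>
        simp only [Fm.subst, hq, Fm.vars, Finset.mem_singleton]
        exact fun e => hi e.symm
      | some q => simp [Fm.subst, hq, Fm.vars]
  | add F G ihF ihG =>
    simp only [Fm.subst, Fm.vars, Finset.mem_union, not_or]
    exact ⟨ihF, ihG⟩
  | mul F G ihF ihG =>
    simp only [Fm.subst, Fm.vars, Finset.mem_union, not_or]
    exact ⟨ihF, ihG⟩

private theorem pderiv_subst_zero {j : ℕ} (σ : ℕ → Option ℚ) {F : Fm} (h : j ∉ F.vars) :
    pderiv j (F.subst σ).poly = 0 :=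
  pderiv_zero_of_vars (fun h' => h (vars_subst σ F h'))

theorem pderiv_subst (j : ℕ) (σ : ℕ → Option ℚ) (F : Fm) : pderiv j (F.subst σ).poly =
    if σ j = none then ((dF j F).subst σ).poly else 0 := by
  by_cases hσ : σ j = none
  swap
  · rw [if_neg hσ]
    exact pderiv_zero_of_vars (subst_notMem hσ F)
  rw [if_pos hσ]
  induction F with
  | const q => simp [dF, Fm.subst, Fm.poly]
  | var i =>
    by_cases h : i = j
    · subst h
      simp [dF, Fm.subst, hσ, Fm.poly]
    · cases hq : σ i with
      | none => simp [dF, Fm.subst, hq, Fm.poly, h, pderiv_X_of_ne h]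
      | some q => simp [dF, Fm.subst, hq, Fm.poly, h]
  | add F G ihF ihG =>
    simp only [dF, Fm.subst, Fm.poly, map_add]
    by_cases hF : j ∈ F.vars
    · by_cases hG : j ∈ G.vars
      · rw [if_pos hF, if_pos hG]
        simp only [Fm.subst, Fm.poly, ihF, ihG]
      · rw [if_pos hF, if_neg hG, pderiv_subst_zero σ hG, add_zero, ihF]
    · rw [if_neg hF, pderiv_subst_zero σ hF, zero_add, ihG]
  | mul F G ihF ihG =>
    simp only [dF, Fm.subst, Fm.poly, pderiv_mul]
    by_cases hF : j ∈ F.vars
    · by_cases hG : j ∈ G.vars
      · rw [if_pos hF, if_pos hG]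
        simp only [Fm.subst, Fm.poly, ihF, ihG]
      · rw [if_pos hF, if_neg hG, pderiv_subst_zero σ hG, mul_zero, add_zero]
        simp only [Fm.subst, Fm.poly, ihF]
    · by_cases hG : j ∈ G.vars
      · rw [if_neg hF, if_pos hG, pderiv_subst_zero σ hF, zero_mul, zero_add]
        simp only [Fm.subst, Fm.poly, ihG]
      · rw [if_neg hF, if_neg hG, pderiv_subst_zero σ hF, pderiv_subst_zero σ hG, zero_mul,
          mul_zero, add_zero]
        simp [Fm.subst, Fm.poly]

/-- iterated derivatives of an instance: an instance of the iterated derivative, or zero -/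
theorem pderivs_subst (V : List ℕ) (σ : ℕ → Option ℚ) (F : Fm) :
    V.foldr (fun j f => pderiv j f) (F.subst σ).poly =
      ((dCs (V.map fun j => j + 3) F).subst σ).poly ∨
    V.foldr (fun j f => pderiv j f) (F.subst σ).poly = 0 := by
  induction V with
  | nil => exact Or.inl rfl
  | cons j V ih =>
    have e : (j :: V).foldr (fun j f => pderiv j f) (F.subst σ).poly =
        pderiv j (V.foldr (fun j f => pderiv j f) (F.subst σ).poly) := rfl
    rw [e]
    rcases ih with h | h
    · rw [h, pderiv_subst]
      have e2 : dCs ((j :: V).map fun j => j + 3) F = dF j (dCs (V.map fun j => j + 3) F) := by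
        show dC (j + 3) _ = _
        unfold dC
        rw [if_pos (Nat.le_add_left 3 j), Nat.add_sub_cancel]
        rfl
      rw [e2]
      split_ifs
      · exact Or.inl rfl
      · exact Or.inr rfl
    · rw [h, map_zero]
      exact Or.inr rfl

end Pool.Agent.RPX
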