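import Pool.Agent.RPX.DerF

set_option autoImplicit false

/-!
RPX-DerW. The derivative of a formula, in polynomial time on the postfix codes (library FP).

Plan: a stack machine on the tokens (`FP.foldl` along the word, context = the code `c` of the variable, as `drun` in `SP/Dual.lean`
or `Helper6/WB/Eval.lean`, `Arith.lean`): the state is `c` and a stack of triples (code of `G`, code of `dF j G`, does `j` occur in `G`). Token `(0, q)`:
push `([(0, q)], [(0, 0)], false)`; `(1, 0)` and `(2, 0)`: pop two entries and combine them according to the definition of `dF`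
(`G.code ++ H.code ++ [(1, 0)]` etc.); `(i + 3, 0)`: push `([(i + 3, 0)], [(0, 1)] or [(0, 0)], decide (i + 3 = c))`. The run on `F.code` from any
stack pushes the right triple (induction on the formula). Size of the state: the total length of the first components is the
number of the tokens read; the second component of an entry with `m` tokens in the first has at most `4 * m ^ 2` tokens, every
token of them is a token of the word or one of `(0, 0)`, `(0, 1)`, `(1, 0)`, `(2, 0)`; so the size is bounded by a polynomial of the size of the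
word (bound with `sz` of all tokens at most `sz w + constant`). For `c < 3` return the word itself (`FP.ite`). The names of variables: the
code of the variable `x_i` is `(i + 3, 0)`.
-/

namespace Pool.Agent.RPX

open MvPolynomial N487b59b3 N68a2faeb Pool.Agent.Helper22 Pool.Agent.Helper6.WB
  Pool.Agent.Helper6.SP

/-- an entry of the stack: code, code of the derivative, does the variable occur -/
private abbrev En := Wd × (Wd × Bool)

private def tkA : ℕ × ℚ := (1, 0)
private def tkM : ℕ × ℚ := (2, 0)
private def tk0 : ℕ × ℚ := (0, 0)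
private def tk1 : ℕ × ℚ := (0, 1)
private def en0 : En := ([], ([], false))

private def addE (f g : En) : En :=
  (f.1 ++ g.1 ++ [tkA], (if f.2.2 then (if g.2.2 then f.2.1 ++ g.2.1 ++ [tkA] else f.2.1)
    else g.2.1, f.2.2 || g.2.2))

private def mulE (f g : En) : En :=
  (f.1 ++ g.1 ++ [tkM], (if f.2.2 then
    (if g.2.2 then (f.2.1 ++ g.1 ++ [tkM]) ++ (f.1 ++ g.2.1 ++ [tkM]) ++ [tkA]
      else f.2.1 ++ g.1 ++ [tkM])
    else (if g.2.2 then f.1 ++ g.2.1 ++ [tkM] else [tk0]), f.2.2 || g.2.2))

private def varE (c : ℕ) (t : ℕ × ℚ) : En :=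
  ([t], (if decide (t.1 = c) then [tk1] else [tk0], decide (t.1 = c)))

private def stk (c : ℕ) (s : List En) (t : ℕ × ℚ) : List En :=
  if decide (t.1 = 0) then ([t], ([tk0], false)) :: s
  else if decide (t.1 = 1) then addE (s.tail.headD en0) (s.headD en0) :: s.tail.tail
  else if decide (t.1 = 2) then mulE (s.tail.headD en0) (s.headD en0) :: s.tail.tail
  else varE c t :: s

private def stp (s : ℕ × List En) (t : ℕ × ℚ) : ℕ × List En := (s.1, stk s.1 s.2 t)

/-! ## Size -/

private def mA (s : List En) : ℕ := (s.map fun e => sz e.1).sum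
private def mD (s : List En) : ℕ := (s.map fun e => sz e.2.1).sum

private theorem mA_nil : mA [] = 0 := rfl
private theorem mD_nil : mD [] = 0 := rfl
private theorem mA_cons (e : En) (s : List En) : mA (e :: s) = sz e.1 + mA s := by simp [mA]
private theorem mD_cons (e : En) (s : List En) : mD (e :: s) = sz e.2.1 + mD s := by simp [mD]

private theorem sz_st (s : List En) : sz s = 4 * mA s + 4 * mD s + 7 * s.length := by
  induction s with
  | nil => rfl
  | cons e s ih =>
    obtain ⟨A, D, b⟩ := e
    rw [sz_cons, ih, mA_cons, mD_cons, List.length_cons, sz_pair, sz_pair, sz_bool]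
    simp only
    omega

/-- the constant -/
private def cK : ℕ := 2 * (2 * sz tkA + 2 * sz tkM + 2 * sz tk0 + 2 * sz tk1) + 10

private theorem mA_pop (s : List En) :
    sz (s.tail.headD en0).1 + sz (s.headD en0).1 + mA s.tail.tail = mA s := by
  rcases s with _ | ⟨a, _ | ⟨b, s⟩⟩
  · rfl
  · simp only [List.tail_cons, List.headD_nil, List.headD_cons, List.tail_nil, mA_cons, mA_nil]
    simp [en0]
  · simp only [List.tail_cons, List.headD_cons, mA_cons]
    omega

private theorem mD_pop (s : List En) :
    sz (s.tail.headD en0).2.1 + sz (s.headD en0).2.1 + mD s.tail.tail = mD s := by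
  rcases s with _ | ⟨a, _ | ⟨b, s⟩⟩
  · rfl
  · simp only [List.tail_cons, List.headD_nil, List.headD_cons, List.tail_nil, mD_cons, mD_nil]
    simp [en0]
  · simp only [List.tail_cons, List.headD_cons, mD_cons]
    omega

private theorem len_pop (s : List En) : s.tail.tail.length ≤ s.length := by
  simp only [List.length_tail]
  omega

private theorem addE_A (f g : En) : sz (addE f g).1 ≤ sz f.1 + sz g.1 + cK := by
  simp only [addE, sz_append, sz_cons, sz_nil, cK]
  omega

private theorem mulE_A (f g : En) : sz (mulE f g).1 ≤ sz f.1 + sz g.1 + cK := by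
  simp only [mulE, sz_append, sz_cons, sz_nil, cK]
  omega

private theorem addE_D (f g : En) : sz (addE f g).2.1 ≤ sz f.2.1 + sz g.2.1 + cK := by
  simp only [addE, cK]
  split_ifs
  · simp only [sz_append, sz_cons, sz_nil]
    omega
  · omega
  · omega

private theorem mulE_D (f g : En) :
    sz (mulE f g).2.1 ≤ sz f.2.1 + sz g.2.1 + (sz f.1 + sz g.1) + cK := by
  simp only [mulE, cK]
  split_ifs <;> simp only [sz_append, sz_cons, sz_nil] <;> omega

private theorem stk_A (c : ℕ) (s : List En) (t : ℕ × ℚ) :
    mA (stk c s t) ≤ mA s + (2 * sz t + 1 + cK) := by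
  unfold stk
  have h1 := mA_pop s
  split_ifs
  · rw [mA_cons]
    simp only [sz_cons, sz_nil]
    omega
  · rw [mA_cons]
    have h2 := addE_A (s.tail.headD en0) (s.headD en0)
    omega
  · rw [mA_cons]
    have h2 := mulE_A (s.tail.headD en0) (s.headD en0)
    omega
  · rw [mA_cons]
    simp only [varE, sz_cons, sz_nil]
    omega

private theorem stk_D (c : ℕ) (s : List En) (t : ℕ × ℚ) :
    mD (stk c s t) ≤ mD s + (mA s + cK) := by
  unfold stk
  have h1 := mA_pop s
  have h2 := mD_pop s
  split_ifs
  · rw [mD_cons]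
    simp only [sz_cons, sz_nil, cK]
    omega
  · rw [mD_cons]
    have h3 := addE_D (s.tail.headD en0) (s.headD en0)
    omega
  · rw [mD_cons]
    have h3 := mulE_D (s.tail.headD en0) (s.headD en0)
    omega
  · rw [mD_cons]
    have h4 : sz (varE c t).2.1 ≤ cK := by
      simp only [varE, cK]
      split_ifs <;> simp only [sz_cons, sz_nil] <;> omega
    omega

private theorem stk_len (c : ℕ) (s : List En) (t : ℕ × ℚ) :
    (stk c s t).length ≤ s.length + 1 := by
  unfold stk
  have h1 := len_pop s
  split_ifs <;> simp only [List.length_cons] <;> omega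

private theorem fst_foldl (l : Wd) (s : ℕ × List En) : (l.foldl stp s).1 = s.1 := by
  induction l generalizing s with
  | nil => rfl
  | cons t l ih =>
    rw [List.foldl_cons, ih]
    rfl

private theorem foldl_A (l : Wd) (s : ℕ × List En) :
    mA (l.foldl stp s).2 ≤ mA s.2 + (cK + 1) * sz l := by
  induction l generalizing s with
  | nil => simp
  | cons t l ih =>
    rw [List.foldl_cons]
    refine (ih _).trans ?_
    have h1 := stk_A s.1 s.2 t
    have h2 : (stp s t).2 = stk s.1 s.2 t := rfl
    rw [h2, sz_cons]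
    have h3 : (cK + 1) * (2 * sz t + 1 + sz l) = (2 * sz t + 1 + cK) + cK * (2 * sz t) +
        (cK + 1) * sz l := by ring
    rw [h3]
    omega

private theorem foldl_D (l : Wd) (s : ℕ × List En) :
    mD (l.foldl stp s).2 ≤ mD s.2 + l.length * (mA s.2 + (cK + 1) * sz l + cK) := by
  induction l generalizing s with
  | nil => simp
  | cons t l ih =>
    rw [List.foldl_cons]
    refine (ih _).trans ?_
    have h1 := stk_A s.1 s.2 t
    have h4 := stk_D s.1 s.2 t
    have h2 : (stp s t).2 = stk s.1 s.2 t := rfl
    rw [h2, sz_cons, List.length_cons]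
    have h3 : (cK + 1) * (2 * sz t + 1 + sz l) = (2 * sz t + 1 + cK) + cK * (2 * sz t) +
        (cK + 1) * sz l := by ring
    have h5 : l.length * (mA (stk s.1 s.2 t) + (cK + 1) * sz l + cK) ≤
        l.length * (mA s.2 + (cK + 1) * (2 * sz t + 1 + sz l) + cK) := by
      apply Nat.mul_le_mul_left
      rw [h3]
      omega
    have h6 : (l.length + 1) * (mA s.2 + (cK + 1) * (2 * sz t + 1 + sz l) + cK) =
        l.length * (mA s.2 + (cK + 1) * (2 * sz t + 1 + sz l) + cK) +
          (mA s.2 + (cK + 1) * (2 * sz t + 1 + sz l) + cK) := by ring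
    rw [h6]
    omega

private theorem foldl_len (l : Wd) (s : ℕ × List En) :
    (l.foldl stp s).2.length ≤ s.2.length + l.length := by
  induction l generalizing s with
  | nil => simp
  | cons t l ih =>
    rw [List.foldl_cons]
    refine (ih _).trans ?_
    have h1 := stk_len s.1 s.2 t
    have h2 : (stp s t).2 = stk s.1 s.2 t := rfl
    rw [h2, List.length_cons]
    omega

private theorem len_le_sz (l : Wd) : l.length ≤ sz l := by
  induction l with
  | nil => simp
  | cons t l ih =>
    rw [sz_cons, List.length_cons]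
    omega

private theorem foldl_sz (l : Wd) (s : ℕ × List En) : sz (l.foldl stp s) ≤
    1 + (40 + 8 * cK) * (sz l + sz s) +
      4 * (sz l + sz s) * ((cK + 2) * (sz l + sz s) + cK) := by
  have h1 := fst_foldl l s
  have h2 := foldl_A l s
  have h3 := foldl_D l s
  have h4 := foldl_len l s
  have h5 := len_le_sz l
  rcases hq : l.foldl stp s with ⟨c', s'⟩
  rw [hq] at h1 h2 h3 h4
  obtain ⟨c, s⟩ := s
  simp only at h1 h2 h3 h4
  subst h1
  rw [sz_pair, sz_st, sz_pair]
  have h6 := sz_st s
  generalize hN : sz l + (2 * sz c' + 1 + sz s) = N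
  have h7 : mA s ≤ N := by omega
  have h8 : mD s ≤ N := by omega
  have h9 : s.length ≤ N := by omega
  have h10 : sz l ≤ N := by omega
  have h11 : (cK + 1) * sz l ≤ (cK + 1) * N := Nat.mul_le_mul_left _ h10
  have h12 : l.length * (mA s + (cK + 1) * sz l + cK) ≤ N * ((cK + 2) * N + cK) := by
    refine Nat.mul_le_mul (h5.trans h10) ?_
    have : (cK + 2) * N = N + (cK + 1) * N := by ring
    rw [this]
    omega
  have h13 : (cK + 1) * N = cK * N + N := by ring
  have h14 : (40 + 8 * cK) * N = 40 * N + 8 * (cK * N) := by ring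
  have h15 : 4 * N * ((cK + 2) * N + cK) = 4 * (N * ((cK + 2) * N + cK)) := by ring
  rw [h14, h15]
  omega

/-! ## Polynomial time -/

private theorem fp_addE : FP fun p : En × En => addE p.1 p.2 := by
  unfold addE
  have h1 : FP fun p : En × En => p.1.1 := by fun_prop
  have h2 : FP fun p : En × En => p.2.1 := by fun_prop
  have h3 : FP fun p : En × En => p.1.2.1 := by fun_prop
  have h4 : FP fun p : En × En => p.2.2.1 := by fun_prop
  have h5 : FP fun p : En × En => p.1.2.2 := by fun_prop
  have h6 : FP fun p : En × En => p.2.2.2 := by fun_prop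
  exact FP.pair (FP.append (FP.append h1 h2) (FP.const _)) (FP.pair
    (FP.ite h5 (FP.ite h6 (FP.append (FP.append h3 h4) (FP.const _)) h3) h4) (FP.or h5 h6))

private theorem fp_mulE : FP fun p : En × En => mulE p.1 p.2 := by
  unfold mulE
  have h1 : FP fun p : En × En => p.1.1 := by fun_prop
  have h2 : FP fun p : En × En => p.2.1 := by fun_prop
  have h3 : FP fun p : En × En => p.1.2.1 := by fun_prop
  have h4 : FP fun p : En × En => p.2.2.1 := by fun_prop
  have h5 : FP fun p : En × En => p.1.2.2 := by fun_prop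
  have h6 : FP fun p : En × En => p.2.2.2 := by fun_prop
  have h7 : FP fun p : En × En => p.1.2.1 ++ p.2.1 ++ [tkM] :=
    FP.append (FP.append h3 h2) (FP.const _)
  have h8 : FP fun p : En × En => p.1.1 ++ p.2.2.1 ++ [tkM] :=
    FP.append (FP.append h1 h4) (FP.const _)
  exact FP.pair (FP.append (FP.append h1 h2) (FP.const _)) (FP.pair
    (FP.ite h5 (FP.ite h6 (FP.append (FP.append h7 h8) (FP.const _)) h7)
      (FP.ite h6 h8 (FP.const _))) (FP.or h5 h6))

private theorem fp_stp : FP fun p : (ℕ × List En) × (ℕ × ℚ) => stp p.1 p.2 := by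
  unfold stp stk varE
  have c1 : FP fun p : (ℕ × List En) × (ℕ × ℚ) => p.1.1 := by fun_prop
  have c2 : FP fun p : (ℕ × List En) × (ℕ × ℚ) => p.1.2 := by fun_prop
  have c3 : FP fun p : (ℕ × List En) × (ℕ × ℚ) => p.2.1 := by fun_prop
  have c4 : FP fun p : (ℕ × List En) × (ℕ × ℚ) => p.2 := by fun_prop
  have c5 : FP fun p : (ℕ × List En) × (ℕ × ℚ) => p.1.2.headD en0 := FP.headD c2 _
  have c6 : FP fun p : (ℕ × List En) × (ℕ × ℚ) => p.1.2.tail.headD en0 := FP.headD c2.tail _
  have c7 : FP fun p : (ℕ × List En) × (ℕ × ℚ) => p.1.2.tail.tail := c2.tail.tail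
  have d0 : FP fun p : (ℕ × List En) × (ℕ × ℚ) => decide (p.2.1 = 0) := FP.natEq c3 (FP.const 0)
  have d1 : FP fun p : (ℕ × List En) × (ℕ × ℚ) => decide (p.2.1 = 1) := FP.natEq c3 (FP.const 1)
  have d2 : FP fun p : (ℕ × List En) × (ℕ × ℚ) => decide (p.2.1 = 2) := FP.natEq c3 (FP.const 2)
  have d3 : FP fun p : (ℕ × List En) × (ℕ × ℚ) => decide (p.2.1 = p.1.1) := FP.natEq c3 c1
  have e1 : FP fun p : (ℕ × List En) × (ℕ × ℚ) => ([p.2] : Wd) := FP.cons c4 (FP.const _)
  refine FP.pair c1 (FP.ite d0 ?_ (FP.ite d1 ?_ (FP.ite d2 ?_ ?_)))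
  · exact FP.cons (FP.pair e1 (FP.const (([tk0], false) : Wd × Bool))) c2
  · exact FP.cons (fp_addE.comp (c6.pair c5)) c7
  · exact FP.cons (fp_mulE.comp (c6.pair c5)) c7
  · exact FP.cons (FP.pair e1 (FP.pair (FP.ite d3 (FP.const _) (FP.const _)) d3)) c2

private theorem fp_run : FP fun p : Wd × (ℕ × List En) => p.1.foldl stp p.2 := by
  refine FP.foldl fp_stp (B := fun n => 1 + (40 + 8 * cK) * n + 4 * n * ((cK + 2) * n + cK))
    (by fun_prop) ?_
  intro l s
  exact foldl_sz l s

/-! ## Correctness -/

private def entF (j : ℕ) (F : Fm) : En := (F.code, ((dF j F).code, decide (j ∈ F.vars)))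

private theorem run_code (j : ℕ) (F : Fm) (s : List En) :
    F.code.foldl stp (j + 3, s) = (j + 3, entF j F :: s) := by
  induction F generalizing s with
  | const q => rfl
  | var i =>
    simp only [Fm.code, List.foldl_cons, List.foldl_nil, stp, stk, varE, entF, dF, Fm.vars]
    by_cases h : i = j
    · subst h
      simp [tk1, Fm.code]
    · have h' : ¬ j = i := fun hh => h hh.symm
      simp [tk0, Fm.code, h, h']
  | add F G ihF ihG =>
    have h1 : (Fm.add F G).code = F.code ++ (G.code ++ [(1, 0)]) := by
      rw [Fm.code, List.append_assoc]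
    rw [h1, List.foldl_append, ihF, List.foldl_append, ihG]
    simp only [List.foldl_cons, List.foldl_nil, stp, stk]
    have h2 : entF j (Fm.add F G) = addE (entF j F) (entF j G) := by
      simp only [entF, addE, dF, Fm.code, Fm.vars, tkA, Finset.mem_union]
      by_cases hF : j ∈ F.vars <;> by_cases hG : j ∈ G.vars <;> simp [hF, hG, Fm.code]
    rw [h2]
    simp
  | mul F G ihF ihG =>
    have h1 : (Fm.mul F G).code = F.code ++ (G.code ++ [(2, 0)]) := by
      rw [Fm.code, List.append_assoc]
    rw [h1, List.foldl_append, ihF, List.foldl_append, ihG]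
    simp only [List.foldl_cons, List.foldl_nil, stp, stk]
    have h2 : entF j (Fm.mul F G) = mulE (entF j F) (entF j G) := by
      simp only [entF, mulE, dF, Fm.code, Fm.vars, tkA, tkM, tk0, Finset.mem_union]
      by_cases hF : j ∈ F.vars <;> by_cases hG : j ∈ G.vars <;> simp [hF, hG, Fm.code]
    rw [h2]
    simp

theorem exists_dW : ∃ g : ℕ × Wd → Wd, FP g ∧ ∀ (c : ℕ) (F : Fm),
    g (c, F.code) = (dC c F).code := by
  have c1 : FP fun p : ℕ × Wd => p.1 := by fun_prop
  have c2 : FP fun p : ℕ × Wd => p.2 := by fun_prop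
  refine ⟨fun p => if decide (p.1 = 0) then p.2 else if decide (p.1 = 1) then p.2 else
    if decide (p.1 = 2) then p.2 else
    ((p.2.foldl stp (p.1, [])).2.headD en0).2.1, ?_, ?_⟩
  · have h0 : FP fun p : ℕ × Wd => p.2.foldl stp (p.1, ([] : List En)) :=
      fp_run.comp (c2.pair (c1.pair (FP.const _)))
    have h1 : FP fun p : ℕ × Wd => ((p.2.foldl stp (p.1, [])).2.headD en0).2.1 :=
      (FP.headD h0.snd' _).snd'.fst'
    exact FP.ite (FP.natEq c1 (FP.const 0)) c2 (FP.ite (FP.natEq c1 (FP.const 1)) c2
      (FP.ite (FP.natEq c1 (FP.const 2)) c2 h1))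
  · intro c F
    unfold dC
    by_cases h0 : c = 0
    · subst h0
      simp
    by_cases h1 : c = 1
    · subst h1
      simp
    by_cases h2 : c = 2
    · subst h2
      simp
    obtain ⟨j, rfl⟩ : ∃ j, c = j + 3 := ⟨c - 3, by omega⟩
    rw [if_pos (by omega)]
    simp only [run_code, h0, h1, h2, decide_false, Bool.false_eq_true, if_false,
      List.headD_cons, entF, Nat.add_sub_cancel]

theorem exists_dWs (Δ : ℕ) : ∃ g : List ℕ × Wd → Wd, FP g ∧ ∀ (V : List ℕ) (F : Fm),
    V.length = Δ → g (V, F.code) = (dCs V F).code := by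
  induction Δ with
  | zero =>
    refine ⟨fun p => p.2, by fun_prop, fun V F hV => ?_⟩
    rw [List.length_eq_zero_iff] at hV
    subst hV
    rfl
  | succ Δ ih =>
    obtain ⟨g, hg, hg'⟩ := ih
    obtain ⟨h, hh, hh'⟩ := exists_dW
    have c1 : FP fun p : List ℕ × Wd => p.1 := by fun_prop
    have c2 : FP fun p : List ℕ × Wd => p.2 := by fun_prop
    refine ⟨fun p => h (p.1.headD 0, g (p.1.tail, p.2)), ?_, fun V F hV => ?_⟩
    · exact hh.comp (FP.pair (FP.headD c1 _) (hg.comp (FP.pair c1.tail c2)))
    · rcases V with _ | ⟨c, V⟩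
      · simp at hV
      · rw [List.length_cons] at hV
        simp only [List.headD_cons, List.tail_cons]
        rw [hg' V F (by omega), hh']
        rfl

end Pool.Agent.RPX
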