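import Pool.Agent.RPX.DerW

set_option autoImplicit false

/-!
RPX-Ext. The list of the formulas and their derivatives.

Plan: `exists_extW`: `gs_cd` (`SP/Tests.lean`: the codes of `gF [L0]` are `gs (cd [L0])`, `fp_gs`), `fp_names`, `fp_lpow`, `fp_flatMap`, `fp_map`,
`exists_dWs`; `cd [L0] = [L0.map Fm.code]`. `names_ext`: `mem_names`, `vars_dCs`, and the list `V = 0, .., 0` (`dCs` does not change the
formula), which gives `gF [L0] ⊆ extF Δ L0`. `vars_gF`. `reads_ext`: `reads_dCs`, the formulas of `gF [L0]` are those of `L0`, constants and variables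
(`reads ≤ 1`). `derivs_mem`: `pderivs_subst`, the list `V` padded with zeros at the end (`dC 0 F = F`), `mem_iF`; for the value `0` take the instance of
`Fm.const 0`.
-/

namespace Pool.Agent.RPX

open MvPolynomial N487b59b3 N68a2faeb Pool.Agent.Helper22 Pool.Agent.Helper6.WB
  Pool.Agent.Helper6.SP

/-- the formulas, the variables, and their derivatives of order at most `Δ` -/
def extF (Δ : ℕ) (L0 : List Fm) : List Fm :=
  (gF [L0]).flatMap fun g => (lpow (0 :: names (cd [L0])) Δ).map fun V => dCs V g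

/-- bound for the reads of the derivatives -/
def rD (r Δ : ℕ) : ℕ := (r + 1) ^ (2 ^ Δ)

private theorem fp_sing : FP fun w : List Wd => ([w] : Inp) := FP.cons FP.id (FP.const [])

private theorem fp_extW {d : List ℕ × Wd → Wd} (hd : FP d) (Δ : ℕ) : FP fun w : List Wd =>
    ([(gs [w]).flatMap fun c => (lpow (0 :: names [w]) Δ).map fun V => d (V, c)] : Inp) := by
  have h0 : FP fun p : List Wd × Wd => ([p.1] : Inp) := fp_sing.comp FP.fst
  have h1 : FP fun p : List Wd × Wd => (0 :: names [p.1] : List ℕ) :=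
    FP.cons (FP.const 0) (fp_names.comp h0)
  have h2 : FP fun q : (List Wd × Wd) × List ℕ => d (q.2, q.1.2) :=
    hd.comp (f := fun q : (List Wd × Wd) × List ℕ => (q.2, q.1.2)) (by fun_prop)
  have h3 : FP fun p : List Wd × Wd => (lpow (0 :: names [p.1]) Δ).map fun V =>
      (fun q : (List Wd × Wd) × List ℕ => d (q.2, q.1.2)) (p, V) := fp_map (fp_lpow h1 Δ) h2
  have h4 : FP fun w : List Wd => (gs [w]).flatMap fun c =>
      (fun p : List Wd × Wd => (lpow (0 :: names [p.1]) Δ).map fun V =>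
      (fun q : (List Wd × Wd) × List ℕ => d (q.2, q.1.2)) (p, V)) (w, c) :=
    fp_flatMap (fp_gs.comp fp_sing) h3
  exact FP.cons h4 (FP.const [])

theorem exists_extW (Δ : ℕ) : ∃ g : List Wd → Inp, FP g ∧ ∀ L0 : List Fm,
    g (L0.map Fm.code) = cd [extF Δ L0] := by
  obtain ⟨d, hd, hdw⟩ := exists_dWs Δ
  refine ⟨_, fp_extW hd Δ, fun L0 => ?_⟩
  have e1 : ([L0.map Fm.code] : Inp) = cd [L0] := rfl
  have e2 : cd [extF Δ L0] = [(extF Δ L0).map Fm.code] := rfl
  rw [e1, e2, gs_cd, extF, List.flatMap_map, List.map_flatMap]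
  congr 2
  funext g
  rw [List.map_map]
  apply List.map_congr_left
  intro V hV
  exact hdw V g (mem_lpow.mp hV).1

private theorem dCs_zeros (n : ℕ) (F : Fm) : dCs (List.replicate n 0) F = F := by
  induction n with
  | zero => rfl
  | succ n ih =>
    rw [List.replicate_succ]
    unfold dCs at ih ⊢
    rw [List.foldr_cons, ih]
    simp [dC]

private theorem dCs_append (V W : List ℕ) (F : Fm) : dCs (V ++ W) F = dCs V (dCs W F) := by
  unfold dCs
  rw [List.foldr_append]

theorem mem_extF {Δ : ℕ} {L0 : List Fm} {g : Fm} (h : g ∈ gF [L0]) (V : List ℕ)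
    (hV : V.length ≤ Δ) (hn : ∀ c ∈ V, c ∈ names (cd [L0])) : dCs V g ∈ extF Δ L0 := by
  rw [extF, List.mem_flatMap]
  refine ⟨g, h, List.mem_map.mpr ⟨V ++ List.replicate (Δ - V.length) 0, ?_, ?_⟩⟩
  · rw [mem_lpow]
    refine ⟨by rw [List.length_append, List.length_replicate]; omega, fun c hc => ?_⟩
    rcases List.mem_append.mp hc with hc | hc
    · exact List.mem_cons_of_mem _ (hn c hc)
    · rw [(List.mem_replicate.mp hc).2]
      exact List.mem_cons_self
  · rw [dCs_append, dCs_zeros]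

private theorem mem_extF_iff {Δ : ℕ} {L0 : List Fm} {F : Fm} (h : F ∈ extF Δ L0) :
    ∃ g ∈ gF [L0], ∃ V : List ℕ, V.length = Δ ∧ dCs V g = F := by
  rw [extF, List.mem_flatMap] at h
  obtain ⟨g, hg, hF⟩ := h
  obtain ⟨V, hV, rfl⟩ := List.mem_map.mp hF
  exact ⟨g, hg, V, (mem_lpow.mp hV).1, rfl⟩

private theorem mem_vars_of_mem_code {F : Fm} {c : ℕ} (hc : 3 ≤ c) (h : c ∈ F.code.map Prod.fst) :
    c - 3 ∈ F.vars := by
  induction F with
  | const q =>
    simp only [Fm.code, List.map_cons, List.map_nil, List.mem_singleton] at h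
    omega
  | var j =>
    simp only [Fm.code, List.map_cons, List.map_nil, List.mem_singleton] at h
    simp only [Fm.vars, Finset.mem_singleton]
    omega
  | add F G ihF ihG =>
    simp only [Fm.code, List.map_append, List.mem_append, List.map_cons, List.map_nil,
      List.mem_singleton] at h
    simp only [Fm.vars, Finset.mem_union]
    rcases h with (h | h) | h
    · exact Or.inl (ihF h)
    · exact Or.inr (ihG h)
    · omega
  | mul F G ihF ihG =>
    simp only [Fm.code, List.map_append, List.mem_append, List.map_cons, List.map_nil,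
      List.mem_singleton] at h
    simp only [Fm.vars, Finset.mem_union]
    rcases h with (h | h) | h
    · exact Or.inl (ihF h)
    · exact Or.inr (ihG h)
    · omega

private theorem exists_of_mem_names {L : List (List Fm)} {c : ℕ} (h : c ∈ names (cd L)) :
    3 ≤ c ∧ ∃ F ∈ L.flatten, c - 3 ∈ F.vars := by
  obtain ⟨h3, h⟩ := mem_names.mp h
  refine ⟨h3, ?_⟩
  obtain ⟨t, ht, rfl⟩ := List.mem_map.mp h
  unfold toks at ht
  rw [cd_flatten] at ht
  obtain ⟨w, hw, htw⟩ := List.mem_flatten.mp ht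
  obtain ⟨F, hF, rfl⟩ := List.mem_map.mp hw
  exact ⟨F, hF, mem_vars_of_mem_code h3 (List.mem_map_of_mem htw)⟩

private theorem mem_flatten_sing {E : List Fm} {F : Fm} : F ∈ [E].flatten ↔ F ∈ E := by
  simp

theorem names_ext (Δ : ℕ) (L0 : List Fm) (c : ℕ) :
    c ∈ names (cd [extF Δ L0]) ↔ c ∈ names (cd [L0]) := by
  constructor
  · intro h
    obtain ⟨h3, F, hF, hc⟩ := exists_of_mem_names h
    obtain ⟨g, hg, V, -, rfl⟩ := mem_extF_iff (mem_flatten_sing.mp hF)
    have h1 := vars_gF hg (vars_dCs V g hc)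
    rwa [Nat.sub_add_cancel h3] at h1
  · intro h
    obtain ⟨h3, F, hF, hc⟩ := exists_of_mem_names h
    have hg : F ∈ gF [L0] := mem_gF.mpr (Or.inr (Or.inl hF))
    have h1 : dCs [] F ∈ extF Δ L0 := mem_extF hg [] (Nat.zero_le _) (by simp)
    have h2 := vars_flatten (L := [extF Δ L0]) (mem_flatten_sing.mpr h1) hc
    rwa [Nat.sub_add_cancel h3] at h2

theorem reads_ext {r Δ : ℕ} {L0 : List Fm} (h : ∀ g ∈ L0, ∀ i, g.reads i ≤ r) {g : Fm}
    (hg : g ∈ extF Δ L0) (i : ℕ) : g.reads i ≤ rD r Δ := by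
  obtain ⟨g0, hg0, V, hV, rfl⟩ := mem_extF_iff hg
  have h0 : ∀ j, g0.reads j ≤ r + 1 := by
    intro j
    rcases mem_gF.mp hg0 with rfl | hg1 | ⟨l, _, rfl⟩
    · exact Nat.zero_le _
    · exact (h g0 (mem_flatten_sing.mp hg1) j).trans (Nat.le_succ r)
    · show (if l = j then 1 else 0) ≤ r + 1
      split_ifs <;> omega
  have h1 := reads_dCs (r := r + 1) (by omega) V g0 h0 i
  rw [hV] at h1
  exact h1

theorem derivs_mem {k Δ : ℕ} {L0 : List Fm} {g : Fm} (hg : g ∈ gF [L0])
    {m : List (ℕ × ℕ)} (hm : m ∈ lpow (pairs1 (cd [extF Δ L0])) k) (V : List ℕ)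
    (hV : V.length ≤ Δ) (hn : ∀ j ∈ V, j + 3 ∈ names (cd [extF Δ L0])) :
    ∃ F ∈ iF k [extF Δ L0], V.foldr (fun j f => pderiv j f) (g.subst (sgl m)).poly = F.poly := by
  rcases pderivs_subst V (sgl m) g with h | h
  · refine ⟨_, mem_iF.mpr ⟨dCs (V.map fun j => j + 3) g, ?_, m, hm, rfl⟩, h⟩
    refine mem_gF.mpr (Or.inr (Or.inl (mem_flatten_sing.mpr (mem_extF hg _ ?_ ?_))))
    · rwa [List.length_map]
    · intro c hc
      obtain ⟨j, hj, rfl⟩ := List.mem_map.mp hc
      exact (names_ext Δ L0 _).mp (hn j hj)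
  · refine ⟨_, mem_iF.mpr ⟨Fm.const 0, mem_gF.mpr (Or.inl rfl), m, hm, rfl⟩, ?_⟩
    rw [h]
    simp [Fm.subst, Fm.poly]

end Pool.Agent.RPX
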