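import Pool.Agent.RPX.Sys
import Pool.Agent.RPX.Ext
import Pool.Agent.Helper6.SP.Main

set_option autoImplicit false

/-!
RPX-LX. The class of the formulas.

Plan: as in the proof of `hit` in `SP/Hit.lean`, with `L = [extF Δ L0]`, `ρ = vr (cd L)` (`vr_inj`, `vr_range` in `SP/Main.lean`). `LX_sub`: a formula is an
instance of itself (`inst_mem` with `S = ∅`, `subst_of_disjoint`). `LX_H2`: `h2_formula` with `D = (toks (cd L)).length` (`g ∈ L0` is in
`L.flatten`: `mem_extF` with `V = []`, so its size is at most `D`: `size_le_code`, `code_le_toks`), the instances as in the part H2 of `SP/Hit.lean` (the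
pairs `lpow (pairs1 (cd L)) k`, `sgl_eq`), the variables `X i` are the instances of `Fm.var (ρ i) ∈ gF [L0]` (`names_ext`); the statement with `shR` and
coefficients is the same as that with `shf` and `coefSub` (`shf J = VF.shR X J` by `rfl`, `coefSub` is the set of the polynomials with all
coefficients in the subalgebra, `Helper7/T3/Coef.lean`). `LX_NV`: a member of `Dc (LX' ..) Δ` renamed is the polynomial of a member of `iF k L`
(`derivs_mem`, `pderiv_rename`; lemma `rename_pd` as in `RP/Hit.lean`), `det_iF` (`SP/LM.lean`) with `r := rD r Δ`, `reads_ext`, `isLM_ptF`, `rename_det`.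
-/

namespace Pool.Agent.RPX

open MvPolynomial Pool.Agent.Helper8.Occ Pool.Agent.Helper6.WB Pool.Agent.Helper6.SP

/-- the number of the variables of the formulas -/
def nX (Δ : ℕ) (L0 : List Fm) : ℕ := (names (cd [extF Δ L0])).length

/-- the variables of the formulas -/
def eX (Δ : ℕ) (L0 : List Fm) : Fin (nX Δ L0) → ℕ := vr (cd [extF Δ L0])

/-- the polynomials of the formulas -/
def LX (Δ r : ℕ) (L0 : List Fm) : Set (MvPolynomial (Fin (nX Δ L0)) ℚ) :=
  {a | ∃ g ∈ L0, (∀ i, g.reads i ≤ r) ∧ rename (eX Δ L0) a = g.poly}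

/-- the polynomials of the instances -/
def LX' (k Δ : ℕ) (L0 : List Fm) : Set (MvPolynomial (Fin (nX Δ L0)) ℚ) :=
  {a | ∃ g ∈ gF [L0], ∃ m ∈ lpow (pairs1 (cd [extF Δ L0])) k,
    rename (eX Δ L0) a = (g.subst (sgl m)).poly}

/-- the number of the coordinates changed in a step of the search -/
def kX (r Δ T : ℕ) : ℕ := max (kappa (rD r Δ + 1)) (kN (rD r Δ) T)

/-- the point for the formulas -/
noncomputable def vX (k r Δ T : ℕ) (L0 : List Fm) : Fin (nX Δ L0) → ℚ :=
  fun i => ptE (ptF k T (kX r Δ T) (cd [extF Δ L0])) (eX Δ L0 i)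

private theorem lx_m (k : ℕ) (L : List (List Fm)) (S : Finset ℕ) (β : ℕ → ℕ) (hS : S.card ≤ k)
    (hS2 : ∀ i ∈ S, i + 3 ∈ names (cd L)) (hβ : ∀ i, β i ≤ (toks (cd L)).length) :
    ∃ m ∈ lpow (pairs1 (cd L)) k, sgl m = sg S β := by
  refine ⟨(S.toList.map fun i => (i + 3, β i)) ++ List.replicate (k - S.card) (0, 0), ?_,
    sgl_eq S β (k - S.card)⟩
  rw [mem_lpow]
  constructor
  · rw [List.length_append, List.length_map, List.length_replicate, Finset.length_toList]
    omega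
  · intro p hp
    rw [pairs1, mem_prsG]
    rw [List.mem_append] at hp
    rcases hp with hp | hp
    · obtain ⟨i, hi, rfl⟩ := List.mem_map.mp hp
      rw [Finset.mem_toList] at hi
      refine ⟨List.mem_cons_of_mem _ (hS2 i hi), ?_⟩
      rw [List.mem_range]
      exact Nat.lt_succ_of_le (hβ i)
    · have := List.eq_of_mem_replicate hp
      subst this
      exact ⟨List.mem_cons_self, by rw [List.mem_range]; exact Nat.succ_pos _⟩

private theorem lx_self (k : ℕ) (L : List (List Fm)) (g : Fm) :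
    ∃ m ∈ lpow (pairs1 (cd L)) k, g.subst (sgl m) = g := by
  obtain ⟨m, hm, he⟩ := lx_m k L ∅ (fun _ => 0) (Nat.zero_le _) (by simp) fun _ => Nat.zero_le _
  refine ⟨m, hm, ?_⟩
  rw [he]
  exact subst_of_disjoint ∅ _ g fun i _ => Finset.notMem_empty i

private theorem lx_names (Δ : ℕ) (L0 : List Fm) (i : ℕ) :
    i + 3 ∈ names (cd [L0]) ↔ ∃ j, eX Δ L0 j = i := by
  rw [← names_ext Δ L0]
  exact vr_range _ i

private theorem lx_flat {L0 : List Fm} {g : Fm} (hg : g ∈ L0) : g ∈ [L0].flatten :=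
  List.mem_flatten.mpr ⟨L0, List.mem_cons_self, hg⟩

theorem LX_sub (k Δ r : ℕ) (L0 : List Fm) : LX Δ r L0 ⊆ LX' k Δ L0 := by
  rintro a ⟨g, hg, _, ha⟩
  obtain ⟨m, hm, he⟩ := lx_self k [extF Δ L0] g
  refine ⟨g, mem_gF.mpr (Or.inr (Or.inl (lx_flat hg))), m, hm, ?_⟩
  rw [he]
  exact ha

theorem LX_H2 (k Δ r : ℕ) (L0 : List Fm) :
    H2 (LX Δ r L0) (LX' k Δ L0) k (2 ^ (k * r) + k) := by
  rintro a ⟨g, hg, hr, hga⟩ s hs J
  have hg1 : g ∈ gF [L0] := mem_gF.mpr (Or.inr (Or.inl (lx_flat hg)))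
  have hg2 : g ∈ extF Δ L0 := mem_extF hg1 [] (Nat.zero_le _) (by simp)
  have hsz : g.size ≤ (toks (cd [extF Δ L0])).length :=
    (size_le_code g).trans (code_le_toks (lx_flat hg2))
  obtain ⟨A, hA1, hA2, hA3⟩ := h2_formula (eX Δ L0) (vr_inj _) k r
    (toks (cd [extF Δ L0])).length g hr hsz a hga s hs J
  refine ⟨A, ?_, hA1, hA3⟩
  intro b hb
  rcases hA2 b hb with ⟨β, hβ, h1⟩ | ⟨i, hi⟩
  · obtain ⟨m, hm, he⟩ := lx_m k [extF Δ L0] (Finset.univ.image fun j => eX Δ L0 (J j)) β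
      ((Finset.card_image_le.trans (by simp)).trans hs) (by
        intro i hi
        obtain ⟨j, _, rfl⟩ := Finset.mem_image.mp hi
        exact (vr_range _ _).mpr ⟨_, rfl⟩) hβ
    refine ⟨g, hg1, m, hm, ?_⟩
    rw [he]
    exact h1
  · obtain ⟨m, hm, he⟩ := lx_self k [extF Δ L0] (Fm.var (eX Δ L0 i))
    refine ⟨Fm.var (eX Δ L0 i), mem_gF.mpr (Or.inr (Or.inr ⟨_,
      (lx_names Δ L0 _).mpr ⟨i, rfl⟩, rfl⟩)), m, hm, ?_⟩
    rw [he, hi, rename_X]
    rfl

private theorem lx_pd {n : ℕ} {ρ : Fin n → ℕ} (hρ : Function.Injective ρ) (L : List (Fin n))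
    (f : MvPolynomial (Fin n) ℚ) :
    rename ρ (pd L f) = (L.map ρ).foldr (fun j f => pderiv j f) (rename ρ f) := by
  induction L with
  | nil => rfl
  | cons v L ih =>
    rw [pd_cons, List.map_cons, List.foldr_cons, ← ih]
    exact (pderiv_rename hρ v (pd L f)).symm

theorem LX_NV (k r Δ T : ℕ) (L0 : List Fm) (h : ∀ g ∈ L0, ∀ i, g.reads i ≤ r) :
    NV (vX k r Δ T L0) (Dc (LX' k Δ L0) Δ) T := by
  intro M hM a ha J hdet
  have hρ : Function.Injective (eX Δ L0) := vr_inj _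
  have hF : ∀ i, ∃ F ∈ iF k [extF Δ L0], rename (eX Δ L0) (a i) = F.poly := by
    intro i
    obtain ⟨V, hV, b, ⟨g, hg, m, hm, hb⟩, hab⟩ := ha i
    obtain ⟨F, hF1, hF2⟩ := derivs_mem (Δ := Δ) hg hm (V.map (eX Δ L0))
      (by rwa [List.length_map]) (by
        intro j hj
        obtain ⟨q, _, rfl⟩ := List.mem_map.mp hj
        exact (vr_range _ _).mpr ⟨_, rfl⟩)
    refine ⟨F, hF1, ?_⟩
    rw [hab, lx_pd hρ, hb]
    exact hF2
  choose F hF1 hF2 using hF
  have h1 := rename_det (eX Δ L0) hρ a F hF2 J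
  have h2 := det_iF (k := k) (N := T) (κ := kX r Δ T) (r := rD r Δ) (L := [extF Δ L0])
    (Nat.one_le_pow _ _ (Nat.succ_pos r)) (by
      intro g hg i
      obtain ⟨p, hp, hgp⟩ := List.mem_flatten.mp hg
      rw [List.mem_singleton] at hp
      subst hp
      exact reads_ext h hgp i) (le_max_left _ _) (le_max_right _ _)
    (isLM_ptF k T (kX r Δ T) [extF Δ L0]) hM F hF1 (fun j => eX Δ L0 (J j))
    (fun j => (vr_range _ _).mpr ⟨_, rfl⟩) (by
      rw [← h1]
      intro h0
      exact hdet (rename_injective _ hρ (by rw [h0, map_zero])))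
  rw [← h1, eval_rename] at h2
  exact h2

/-- the polynomials of the formulas are polynomials in the chosen variables -/
theorem exists_eX (Δ : ℕ) (L0 : List Fm) {g : Fm} (hg : g ∈ L0) :
    ∃ a : MvPolynomial (Fin (nX Δ L0)) ℚ, rename (eX Δ L0) a = g.poly := by
  apply exists_rename_eq_of_vars_subset_range g.poly (eX Δ L0) (vr_inj _)
  intro i hi
  obtain ⟨j, hj⟩ := (lx_names Δ L0 i).mp (vars_flatten (lx_flat hg) (vars_poly g hi))
  exact ⟨j, hj⟩

end Pool.Agent.RPX
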