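import Pool.Agent.RPX.Sys
import Pool.Agent.RP.Bp
import Pool.Agent.RP.Hit

set_option autoImplicit false

/-!
RPX-LY. The class of the programs (see the proof of `hit` in `RP/Hit.lean`).
-/

namespace Pool.Agent.RPX

open MvPolynomial Pool.Agent.Helper8.Occ Pool.Agent.RP

/-- the polynomials of the tame programs -/
def LY (k t : ℕ) (Ps : List Rb) : Set (MvPolynomial (Fin (nL Ps).length) ℚ) :=
  {g | ∃ ρ ∈ Ps, Tame k t ρ ∧ g = valF (nL Ps).length ρ}

/-- the polynomials of the coefficients -/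
def LY' (k : ℕ) (Ps : List Rb) : Set (MvPolynomial (Fin (nL Ps).length) ℚ) :=
  {g | ∃ ρ ∈ As k 0 Ps, g = valF (nL Ps).length ρ}

/-- the point for the programs -/
noncomputable def vY (k Δ T : ℕ) (Ps : List Rb) : Fin (nL Ps).length → ℚ :=
  fun i => ((bp k Δ T Ps).getD i.val 0 : ℚ)

private theorem ly_rename_pd {n : ℕ} (L : List (Fin n)) (f : MvPolynomial (Fin n) ℚ) :
    rename Fin.val (pd L f) =
      (L.map Fin.val).foldr (fun j f => pderiv j f) (rename Fin.val f) := by
  induction L with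
  | nil => rfl
  | cons v L ih =>
    rw [pd_cons, List.map_cons, List.foldr_cons, ← ih]
    exact (pderiv_rename Fin.val_injective v (pd L f)).symm

theorem LY_sub (k t : ℕ) (Ps : List Rb) : LY k t Ps ⊆ LY' k Ps := by
  rintro g ⟨ρ, hρ, _, rfl⟩
  obtain ⟨G', h1, h2⟩ := input_mem_As k Ps hρ
  exact ⟨G', h1, h2.symm⟩

theorem zero_LY (k : ℕ) (Ps : List Rb) : (0 : MvPolynomial (Fin (nL Ps).length) ℚ) ∈ LY' k Ps := by
  obtain ⟨G, h1, h2⟩ := zero_mem k Ps
  refine ⟨G, h1, rename_injective _ Fin.val_injective ?_⟩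
  rw [rename_valF _ G (length_As h1).le, h2, map_zero]

theorem LY_H2 (k t : ℕ) (Ps : List Rb) : H2 (LY k t Ps) (LY' k Ps) k (tau k t + k) := by
  rintro g ⟨ρ, hρ, ht, rfl⟩ r hr J
  obtain ⟨A, h1, h2, h3⟩ := h2_one k t Ps hρ ht r hr J
  exact ⟨A, h2, h1, h3⟩

theorem LY_NV (k Δ T : ℕ) (Ps : List Rb) : NV (vY k Δ T Ps) (Dc (LY' k Ps) Δ) T := by
  have hinj : Function.Injective
      (rename Fin.val : MvPolynomial (Fin (nL Ps).length) ℚ → MvPolynomial ℕ ℚ) :=
    rename_injective _ Fin.val_injective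
  intro M hM a ha J hdet
  have hG : ∀ i, ∃ G ∈ As k Δ Ps, rename Fin.val (a i) = val G := by
    intro i
    obtain ⟨L, hL, b, ⟨ρ, hρ, rfl⟩, hab⟩ := ha i
    have hlt : ∀ j ∈ L.map Fin.val, j < (nL Ps).length := by
      intro j hj
      obtain ⟨q, _, rfl⟩ := List.mem_map.1 hj
      exact q.2
    refine ⟨ders (L.map Fin.val) ρ, ders_mem hρ _ hlt (by rwa [List.length_map]), ?_⟩
    rw [hab, ly_rename_pd, rename_valF _ ρ (length_As hρ).le, val_ders _ ρ fun j hj => by
      rw [length_As hρ]; exact hlt j hj]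
  choose G hG1 hG2 using hG
  have hren : rename Fin.val (Matrix.of fun i j => pderiv (J j) (a i)).det =
      (Matrix.of fun i j => pderiv (J j).val (val (G i))).det := by
    rw [AlgHom.map_det]
    congr 1
    ext i j : 1
    simp only [AlgHom.mapMatrix_apply, Matrix.map_apply, Matrix.of_apply]
    rw [← hG2 i]
    exact (pderiv_rename Fin.val_injective (J j) (a i)).symm
  have h2 := bp_spec k Δ T Ps hM G (fun j => (J j).val) hG1 (fun j => (J j).2) (by
    rw [← hren]
    intro h0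
    exact hdet (hinj (by rw [h0, map_zero])))
  rw [← hren, eval_rename] at h2
  exact h2

end Pool.Agent.RPX
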