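import Pool.Agent.RPX.Defs
import Pool.Agent.Helper8.Occ.Defs

set_option autoImplicit false

/-!
RPX-OccT. Transfer of formulas to finitely many variables.
-/

namespace Pool.Agent.RPX

open MvPolynomial

theorem vars_rename_inj {σ τ : Type} (e : σ → τ) (he : Function.Injective e)
    (f : MvPolynomial σ ℚ) (v : σ) : e v ∈ (rename e f).vars ↔ v ∈ f.vars := by
  classical
  constructor
  · intro h
    obtain ⟨w, hw, hwv⟩ := Finset.mem_image.1 (vars_rename e f h)
    rwa [← he hwv]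
  · intro h
    obtain ⟨d, hd, hv⟩ := (mem_vars_iff_mem_support v).1 h
    refine (mem_vars_iff_mem_support _).2 ⟨d.mapDomain e, ?_, ?_⟩
    · rw [mem_support_iff, coeff_rename_mapDomain _ he]
      exact mem_support_iff.1 hd
    · rw [Finsupp.mem_support_iff, Finsupp.mapDomain_apply he]
      exact Finsupp.mem_support_iff.1 hv

theorem Occ.toFin {n κ : ℕ} (e : Fin n → Vr) (he : Function.Injective e)
    {𝓛 : MvPolynomial Vr ℚ → Prop} {𝓛' : MvPolynomial (Fin n) ℚ → Prop}
    (hL : ∀ g, 𝓛 g → ∃ g', 𝓛' g' ∧ rename e g' = g) {Δ : ℕ} {f : MvPolynomial Vr ℚ}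
    (h : Occ κ 𝓛 Δ f) : ∃ f' : MvPolynomial (Fin n) ℚ, rename e f' = f ∧
      Pool.Agent.Helper8.Occ.OccFormula κ 𝓛' Δ f' := by
  induction h with
  | leaf hf =>
    obtain ⟨g', h1, h2⟩ := hL _ hf
    exact ⟨g', h2, .leaf h1⟩
  | sum b _ hκ ih =>
    choose b' h1 h2 using ih
    refine ⟨∑ l, b' l, by rw [map_sum]; exact Finset.sum_congr rfl fun l _ => h1 l,
      .sum b' h2 fun v => ?_⟩
    refine le_trans (le_of_eq ?_) (hκ (e v))
    congr 1
    refine Finset.filter_congr fun l _ => ?_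
    rw [← h1 l, vars_rename_inj e he]
  | prod b _ hκ a ih =>
    choose b' h1 h2 using ih
    refine ⟨∏ l, b' l ^ a l, by
      rw [map_prod]
      exact Finset.prod_congr rfl fun l _ => by rw [map_pow, h1 l], .prod b' h2 (fun v => ?_) a⟩
    refine le_trans (le_of_eq ?_) (hκ (e v))
    congr 1
    refine Finset.filter_congr fun l _ => ?_
    rw [← h1 l, vars_rename_inj e he]
  | comp b _ hm p ih =>
    choose b' h1 h2 using ih
    refine ⟨aeval b' p, ?_, .comp b' h2 hm p⟩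
    rw [← AlgHom.comp_apply]
    have h3 : (rename e).comp (aeval b') = (aeval b : MvPolynomial _ ℚ →ₐ[ℚ] _) := by
      apply MvPolynomial.algHom_ext
      intro l
      rw [AlgHom.comp_apply, aeval_X, aeval_X, h1]
    rw [h3]

theorem Occ.mono {κ Δ : ℕ} {𝓛 𝓛' : MvPolynomial Vr ℚ → Prop} (h : ∀ g, 𝓛 g → 𝓛' g)
    {f : MvPolynomial Vr ℚ} (hf : Occ κ 𝓛 Δ f) : Occ κ 𝓛' Δ f := by
  induction hf with
  | leaf hf => exact .leaf (h _ hf)
  | sum b _ hκ ih => exact .sum b ih hκ
  | prod b _ hκ e ih => exact .prod b ih hκ e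
  | comp b _ hm p ih => exact .comp b ih hm p

end Pool.Agent.RPX
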