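import Pool.Agent.RPX.Sys

set_option autoImplicit false

/-!
RPX-UnNV. Jacobian minors of polynomials in two disjoint sets of variables.
-/

namespace Pool.Agent.RPX

open MvPolynomial Pool.Agent.Helper8.Occ

/-- a coloured determinant is the product of the determinants of the two colours, up to the
sign -/
theorem det_block {R : Type*} [CommRing R] {M : ℕ} (A : Matrix (Fin M) (Fin M) R)
    (rc cc : Fin M → Bool) (h : ∀ i j, rc i ≠ cc j → A i j = 0) (hdet : A.det ≠ 0) :
    ∃ (M1 M2 : ℕ) (r1 c1 : Fin M1 → Fin M) (r2 c2 : Fin M2 → Fin M) (u : ℤˣ), M1 + M2 = M ∧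
      (∀ i, rc (r1 i) = true) ∧ (∀ i, cc (c1 i) = true) ∧ (∀ i, rc (r2 i) = false) ∧
      (∀ i, cc (c2 i) = false) ∧
      A.det = ((u : ℤ) : R) * ((A.submatrix r1 c1).det * (A.submatrix r2 c2).det) := by
  classical
  obtain ⟨σ, hσ⟩ : ∃ σ : Equiv.Perm (Fin M), ∀ i, rc (σ i) = cc i := by
    by_contra hcon
    push Not at hcon
    apply hdet
    rw [Matrix.det_apply']
    apply Finset.sum_eq_zero
    intro σ _
    obtain ⟨i, hi⟩ := hcon σ
    have h3 : ∏ i, A (σ i) i = 0 := Finset.prod_eq_zero (Finset.mem_univ i) (h (σ i) i hi)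
    rw [h3, mul_zero]
  set B : Matrix (Fin M) (Fin M) R := A.submatrix id σ.symm with hB
  have hBdet := Matrix.det_permute' σ.symm A
  have hcc : ∀ j, cc (σ.symm j) = rc j := by
    intro j
    rw [← hσ, Equiv.apply_symm_apply]
  have hB0 : ∀ i j, rc i ≠ rc j → B i j = 0 := by
    intro i j hij
    exact h i (σ.symm j) (by rw [hcc]; exact hij)
  let p : Fin M → Prop := fun i => rc i = true
  have h2 := Matrix.twoBlockTriangular_det B p (by
    intro i hi j hj
    apply hB0
    intro heq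
    exact hi (heq.trans hj))
  let e1 : {a // p a} ≃ Fin (Fintype.card {a // p a}) := Fintype.equivFin _
  let e2 : {a // ¬ p a} ≃ Fin (Fintype.card {a // ¬ p a}) := Fintype.equivFin _
  refine ⟨Fintype.card {a // p a}, Fintype.card {a // ¬ p a}, fun i => (e1.symm i).1,
    fun i => σ.symm (e1.symm i).1, fun i => (e2.symm i).1, fun i => σ.symm (e2.symm i).1,
    Equiv.Perm.sign σ.symm, ?_, ?_, ?_, ?_, ?_, ?_⟩
  · rw [Fintype.card_subtype_compl, Nat.add_sub_of_le (Fintype.card_subtype_le _),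
      Fintype.card_fin]
  · intro i
    exact (e1.symm i).2
  · intro i
    rw [hcc]
    exact (e1.symm i).2
  · intro i
    exact Bool.eq_false_iff.2 (e2.symm i).2
  · intro i
    rw [hcc]
    exact Bool.eq_false_iff.2 (e2.symm i).2
  · have e3 : (A.submatrix (fun i => (e1.symm i).1) fun i => σ.symm (e1.symm i).1).det =
        (Matrix.toSquareBlockProp B p).det := by
      rw [← Matrix.det_submatrix_equiv_self e1.symm (Matrix.toSquareBlockProp B p)]
      rfl
    have e4 : (A.submatrix (fun i => (e2.symm i).1) fun i => σ.symm (e2.symm i).1).det =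
        (Matrix.toSquareBlockProp B fun i => ¬ p i).det := by
      rw [← Matrix.det_submatrix_equiv_self e2.symm (Matrix.toSquareBlockProp B fun i => ¬ p i)]
      rfl
    rw [e3, e4, ← h2, hB, hBdet, ← mul_assoc, ← Int.cast_mul, ← Units.val_mul]
    have h5 : Equiv.Perm.sign σ.symm * Equiv.Perm.sign σ.symm = 1 := Int.units_mul_self _
    rw [h5]
    simp

private theorem pd_rename {m m' : ℕ} (ρ : Fin m → Fin m') (hρ : Function.Injective ρ) :
    ∀ (L : List (Fin m')) (f : MvPolynomial (Fin m) ℚ),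
      pd L (rename ρ f) = 0 ∨ ∃ L' : List (Fin m), L'.length = L.length ∧
        pd L (rename ρ f) = rename ρ (pd L' f)
  | [], f => Or.inr ⟨[], rfl, rfl⟩
  | v :: L, f => by
    rcases pd_rename ρ hρ L f with h | ⟨L', hL, h⟩
    · left
      rw [pd_cons, h, map_zero]
    · by_cases hv : v ∈ Set.range ρ
      · obtain ⟨w, rfl⟩ := hv
        right
        refine ⟨w :: L', by simp [hL], ?_⟩
        rw [pd_cons, h, pd_cons, pderiv_rename hρ]
      · left
        rw [pd_cons, h]
        apply pderiv_eq_zero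
        intro hmem
        have h1 := vars_rename ρ (pd L' f) hmem
        rw [Finset.mem_image] at h1
        obtain ⟨w, _, hw⟩ := h1
        exact hv ⟨w, hw⟩

private theorem pderiv_rename_zero {m m' : ℕ} (ρ : Fin m → Fin m') (f : MvPolynomial (Fin m) ℚ)
    (v : Fin m') (hv : v ∉ Set.range ρ) : pderiv v (rename ρ f) = 0 := by
  apply pderiv_eq_zero
  intro hmem
  have h1 := vars_rename ρ f hmem
  rw [Finset.mem_image] at h1
  obtain ⟨w, _, hw⟩ := h1
  exact hv ⟨w, hw⟩

private theorem block_eval {m m' Δ N M M1 : ℕ} (ρ : Fin m → Fin m') (hρ : Function.Injective ρ)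
    {v : Fin m → ℚ} {v' : Fin m' → ℚ} (hv : ∀ i, v' (ρ i) = v i)
    {𝓐 : Set (MvPolynomial (Fin m) ℚ)} (h1 : NV v (Dc 𝓐 Δ) N) (hM : M1 ≤ N)
    (a : Fin M → MvPolynomial (Fin m') ℚ) (J : Fin M → Fin m') (r c : Fin M1 → Fin M)
    (hr : ∀ i, ∃ f ∈ Dc 𝓐 Δ, a (r i) = rename ρ f) (hc : ∀ i, J (c i) ∈ Set.range ρ)
    (hne : ((Matrix.of fun i j => pderiv (J j) (a i)).submatrix r c).det ≠ 0) :
    eval v' ((Matrix.of fun i j => pderiv (J j) (a i)).submatrix r c).det ≠ 0 := by
  choose f hf haf using hr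
  choose k hk using hc
  have h2 : (Matrix.of fun i j => pderiv (J j) (a i)).submatrix r c =
      (rename ρ : MvPolynomial (Fin m) ℚ →ₐ[ℚ] MvPolynomial (Fin m') ℚ).mapMatrix
        (Matrix.of fun i j => pderiv (k j) (f i)) := by
    ext1 i j
    simp only [Matrix.submatrix_apply, Matrix.of_apply, AlgHom.mapMatrix_apply, Matrix.map_apply]
    rw [haf i, ← hk j, pderiv_rename hρ]
  rw [h2, ← AlgHom.map_det] at hne ⊢
  have h3 : (Matrix.of fun i j => pderiv (k j) (f i)).det ≠ 0 := by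
    intro h0
    apply hne
    rw [h0, map_zero]
  have h4 := h1 M1 hM f hf k h3
  rw [eval_rename]
  have h5 : v' ∘ ρ = v := funext hv
  rw [h5]
  exact h4

theorem un_NV {m1 m2 Δ N : ℕ} {v1 : Fin m1 → ℚ} {v2 : Fin m2 → ℚ}
    {𝓐 : Set (MvPolynomial (Fin m1) ℚ)} {𝓑 : Set (MvPolynomial (Fin m2) ℚ)}
    (h1 : NV v1 (Dc 𝓐 Δ) N) (h2 : NV v2 (Dc 𝓑 Δ) N) :
    NV (Fin.append v1 v2) (Dc (Un 𝓐 𝓑) Δ) N := by
  intro M hM a ha J hdet
  have hinj1 : Function.Injective (Fin.castAdd m2 : Fin m1 → Fin (m1 + m2)) :=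
    Fin.castAdd_injective m1 m2
  have hinj2 : Function.Injective (Fin.natAdd m1 : Fin m2 → Fin (m1 + m2)) :=
    Fin.natAdd_injective m2 m1
  have hrow : ∀ i, a i ≠ 0 := by
    intro i h0
    apply hdet
    apply Matrix.det_eq_zero_of_row_eq_zero i
    intro j
    rw [Matrix.of_apply, h0, map_zero]
  have hkind : ∀ i, ∃ b : Bool, (b = true → ∃ f ∈ Dc 𝓐 Δ, a i = rename (Fin.castAdd m2) f) ∧
      (b = false → ∃ f ∈ Dc 𝓑 Δ, a i = rename (Fin.natAdd m1) f) := by
    intro i
    obtain ⟨L, hL, b, hb, hab⟩ := ha i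
    rcases hb with ⟨f, hf, rfl⟩ | ⟨f, hf, rfl⟩
    · refine ⟨true, fun _ => ?_, fun h => by simp at h⟩
      rcases pd_rename (Fin.castAdd m2) hinj1 L f with h0 | ⟨L', hL', h⟩
      · exact absurd (hab.trans h0) (hrow i)
      · exact ⟨pd L' f, ⟨L', by omega, f, hf, rfl⟩, hab.trans h⟩
    · refine ⟨false, fun h => by simp at h, fun _ => ?_⟩
      rcases pd_rename (Fin.natAdd m1) hinj2 L f with h0 | ⟨L', hL', h⟩
      · exact absurd (hab.trans h0) (hrow i)
      · exact ⟨pd L' f, ⟨L', by omega, f, hf, rfl⟩, hab.trans h⟩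
  choose rc hrc1 hrc2 using hkind
  have hcol : ∀ j, ∃ b : Bool, (b = true → J j ∈ Set.range (Fin.castAdd m2 : Fin m1 → Fin (m1 + m2))) ∧
      (b = false → J j ∈ Set.range (Fin.natAdd m1 : Fin m2 → Fin (m1 + m2))) ∧
      (b = true → J j ∉ Set.range (Fin.natAdd m1 : Fin m2 → Fin (m1 + m2))) ∧
      (b = false → J j ∉ Set.range (Fin.castAdd m2 : Fin m1 → Fin (m1 + m2))) := by
    intro j
    generalize J j = x
    refine Fin.addCases (fun k => ?_) (fun k => ?_) x
    · refine ⟨true, fun _ => ⟨k, rfl⟩, fun h => by simp at h, fun _ => ?_, fun h => by simp at h⟩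
      rintro ⟨l, hl⟩
      have h3 := congrArg Fin.val hl
      simp only [Fin.val_natAdd, Fin.val_castAdd] at h3
      have := k.isLt
      omega
    · refine ⟨false, fun h => by simp at h, fun _ => ⟨k, rfl⟩, fun h => by simp at h, fun _ => ?_⟩
      rintro ⟨l, hl⟩
      have h3 := congrArg Fin.val hl
      simp only [Fin.val_natAdd, Fin.val_castAdd] at h3
      have := l.isLt
      omega
  choose cc hcc1 hcc2 hcc3 hcc4 using hcol
  obtain ⟨M1, M2, r1, c1, r2, c2, u, hMM, hr1, hc1, hr2, hc2, hd⟩ :=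
    det_block (Matrix.of fun i j => pderiv (J j) (a i)) rc cc (by
      intro i j hij
      rw [Matrix.of_apply]
      cases hri : rc i with
      | true =>
        have hcj : cc j = false := by
          cases hcj : cc j with
          | true => rw [hri, hcj] at hij; exact absurd rfl hij
          | false => rfl
        obtain ⟨f, _, hf⟩ := hrc1 i hri
        rw [hf]
        exact pderiv_rename_zero _ f _ (hcc4 j hcj)
      | false =>
        have hcj : cc j = true := by
          cases hcj : cc j with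
          | true => rfl
          | false => rw [hri, hcj] at hij; exact absurd rfl hij
        obtain ⟨f, _, hf⟩ := hrc2 i hri
        rw [hf]
        exact pderiv_rename_zero _ f _ (hcc3 j hcj)) hdet
  have hne1 : ((Matrix.of fun i j => pderiv (J j) (a i)).submatrix r1 c1).det ≠ 0 := by
    intro h0
    apply hdet
    rw [hd, h0, zero_mul, mul_zero]
  have hne2 : ((Matrix.of fun i j => pderiv (J j) (a i)).submatrix r2 c2).det ≠ 0 := by
    intro h0
    apply hdet
    rw [hd, h0, mul_zero, mul_zero]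
  have hE1 := block_eval (Fin.castAdd m2) hinj1 (v' := Fin.append v1 v2)
    (fun i => Fin.append_left v1 v2 i) h1 (by omega : M1 ≤ N) a J r1 c1
    (fun i => hrc1 _ (hr1 i)) (fun i => hcc1 _ (hc1 i)) hne1
  have hE2 := block_eval (Fin.natAdd m1) hinj2 (v' := Fin.append v1 v2)
    (fun i => Fin.append_right v1 v2 i) h2 (by omega : M2 ≤ N) a J r2 c2
    (fun i => hrc2 _ (hr2 i)) (fun i => hcc2 _ (hc2 i)) hne2
  rw [hd, map_mul, map_mul]
  refine mul_ne_zero ?_ (mul_ne_zero hE1 hE2)
  rcases Int.units_eq_one_or u with rfl | rfl <;> simp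

theorem H1_of_NV {m N : ℕ} {v : Fin m → ℚ} {𝓒 : Set (MvPolynomial (Fin m) ℚ)} (h : NV v 𝓒 N) :
    H1 (fun i => (C (v i) : MvPolynomial PEmpty.{1} ℚ)) 0 𝓒 N := by
  intro M hM a ha J hdet
  have h1 := h M hM a ha J hdet
  refine VF.Phi_ne_zero _ 0 _ (fun i => i.elim) v ?_ h1
  refine ⟨fun _ => 0, ?_⟩
  funext i
  simp [Pool.Agent.Helper5.gen]

end Pool.Agent.RPX
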