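import Pool.Agent.RPX.UnH2
import Pool.Agent.RPX.UnNV
import Pool.Agent.RPX.LX
import Pool.Agent.RPX.LY
import Pool.Agent.RPX.OccT

set_option autoImplicit false

/-!
RPX-Hit. A point where the minors do not vanish, plus the generator, hits the composition.

Plan: as `hit` in `RP/Hit.lean`: `occ_hit` (`Helper8/Occ/Main.lean`) with `σ = PEmpty`, `c = 0`, `γ i = C (vA i)`, `𝓛 = Un (LX ..) (LY ..)`,
`𝓛' = Un (LX' ..) (LY' ..)`, `t₀ = t0 k r t`, `un_H2`, `un_NV` with `LX_NV`, `LY_NV`, `H1_of_NV` (`H2.mono`). Transfer of the `T i` by `Occ.toFin` with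
`e = eA` (`Submonoid.closure_induction`): a leaf `rename Sum.inl g.poly` is `rename eA (rename (Fin.castAdd _) a)` (`exists_eX`, `rename_rename`), a leaf
`rename Sum.inr (val ρ)` is `rename eA (rename (Fin.natAdd _) (valF _ ρ))` (`rename_valF`, `length_input`).
-/

namespace Pool.Agent.RPX

open MvPolynomial Pool.Agent.Helper8.Occ Pool.Agent.Helper6.WB Pool.Agent.Helper6.SP
  Pool.Agent.RP Pool.Agent.PQ

/-- the number of the local parameters of the leaves -/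
def t0 (k r t : ℕ) : ℕ := max (2 ^ (k * r) + k) (tau k t + k)

/-- the size of the minors -/
def TT (κ k r t Δ : ℕ) : ℕ := minors κ k (t0 k r t) Δ

/-- the number of the seeds -/
def EE (κ k r t Δ : ℕ) : ℕ := extra κ k (t0 k r t) Δ

/-- all variables -/
def eA (Δ : ℕ) (L0 : List Fm) (Ps : List Rb) : Fin (nX Δ L0 + (nL Ps).length) → Vr :=
  Fin.addCases (fun i => Sum.inl (eX Δ L0 i)) fun i => Sum.inr i.val

/-- the base point -/
noncomputable def vA (κ k r t Δ : ℕ) (L0 : List Fm) (Ps : List Rb) :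
    Fin (nX Δ L0 + (nL Ps).length) → ℚ :=
  Fin.append (vX k r Δ (TT κ k r t Δ) L0) (vY k Δ (TT κ k r t Δ) Ps)

private theorem rxhit_castAdd (Δ : ℕ) (L0 : List Fm) (Ps : List Rb) :
    eA Δ L0 Ps ∘ Fin.castAdd (nL Ps).length = Sum.inl ∘ eX Δ L0 := by
  funext i
  simp only [Function.comp_apply, eA, Fin.addCases_left]

private theorem rxhit_natAdd (Δ : ℕ) (L0 : List Fm) (Ps : List Rb) :
    eA Δ L0 Ps ∘ Fin.natAdd (nX Δ L0) = Sum.inr ∘ Fin.val := by
  funext i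
  simp only [Function.comp_apply, eA, Fin.addCases_right]

theorem eA_inj (Δ : ℕ) (L0 : List Fm) (Ps : List Rb) : Function.Injective (eA Δ L0 Ps) := by
  have hl : ∀ i, eA Δ L0 Ps (Fin.castAdd (nL Ps).length i) = Sum.inl (eX Δ L0 i) :=
    fun i => congrFun (rxhit_castAdd Δ L0 Ps) i
  have hr : ∀ i, eA Δ L0 Ps (Fin.natAdd (nX Δ L0) i) = Sum.inr i.val :=
    fun i => congrFun (rxhit_natAdd Δ L0 Ps) i
  intro i j
  refine Fin.addCases (fun i => ?_) (fun i => ?_) i <;>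
    refine Fin.addCases (fun j => ?_) (fun j => ?_) j
  · intro h
    rw [hl, hl] at h
    rw [vr_inj _ (Sum.inl.inj h)]
  · intro h
    rw [hl, hr] at h
    exact absurd h (by simp)
  · intro h
    rw [hr, hl] at h
    exact absurd h (by simp)
  · intro h
    rw [hr, hr] at h
    rw [Fin.ext (Sum.inr.inj h)]

theorem hit (κ k r t Δ : ℕ) (L0 : List Fm) (Ps : List Rb)
    (h0 : ∀ g ∈ L0, ∀ i, g.reads i ≤ r) {N : ℕ} (T : Fin N → MvPolynomial Vr ℚ)
    (hT : ∀ i, T i ∈ Submonoid.closure {f | Occ κ (fun g =>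
      (∃ F ∈ L0, g = rename Sum.inl F.poly) ∨ ∃ ρ ∈ Ps, Tame k t ρ ∧ g = rename Sum.inr (val ρ)) Δ f})
    (htr : ∀ b : Finset (Fin N), AlgebraicIndepOn ℚ T (b : Set (Fin N)) → b.card ≤ k)
    (F : MvPolynomial Vr ℚ) (hF : F ∈ Algebra.adjoin ℚ (Set.range T)) (hne : F ≠ 0) :
    ∃ (f : MvPolynomial (Fin (nX Δ L0 + (nL Ps).length)) ℚ)
      (s : Fin (EE κ k r t Δ) ⊕ Fin (EE κ k r t Δ) → ℚ), rename (eA Δ L0 Ps) f = F ∧
      eval (fun i => vA κ k r t Δ L0 Ps i +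
        Pool.Agent.Helper5.gen (nX Δ L0 + (nL Ps).length) (EE κ k r t Δ) s i) f ≠ 0 := by
  classical
  have he := eA_inj Δ L0 Ps
  have hinj : Function.Injective (rename (eA Δ L0 Ps) :
      MvPolynomial (Fin (nX Δ L0 + (nL Ps).length)) ℚ → MvPolynomial Vr ℚ) :=
    rename_injective _ he
  have hex : ∀ i, ∃ T' : MvPolynomial (Fin (nX Δ L0 + (nL Ps).length)) ℚ,
      rename (eA Δ L0 Ps) T' = T i ∧
      T' ∈ Submonoid.closure (Pool.Agent.Helper8.Occ.F κ (Un (LX Δ r L0) (LY k t Ps)) Δ) := by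
    intro i
    have h1 := hT i
    generalize T i = P at h1
    induction h1 using Submonoid.closure_induction with
    | mem x hx =>
      obtain ⟨f', h1, h2⟩ := Occ.toFin (eA Δ L0 Ps) he
        (𝓛' := fun g => g ∈ Un (LX Δ r L0) (LY k t Ps)) (by
        rintro g (⟨F, hF, rfl⟩ | ⟨ρ, hρ, ht, rfl⟩)
        · obtain ⟨a, ha⟩ := exists_eX Δ L0 hF
          refine ⟨rename (Fin.castAdd (nL Ps).length) a, Or.inl ⟨a, ⟨F, hF, h0 F hF, ha⟩, rfl⟩, ?_⟩
          rw [rename_rename, rxhit_castAdd, ← rename_rename, ha]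
        · refine ⟨rename (Fin.natAdd (nX Δ L0)) (valF (nL Ps).length ρ),
            Or.inr ⟨_, ⟨ρ, hρ, ht, rfl⟩, rfl⟩, ?_⟩
          rw [rename_rename, rxhit_natAdd, ← rename_rename, rename_valF _ ρ (length_input hρ)]) hx
      exact ⟨f', h1, Submonoid.subset_closure h2⟩
    | one => exact ⟨1, map_one _, Submonoid.one_mem _⟩
    | mul x y _ _ ihx ihy =>
      obtain ⟨a, ha1, ha2⟩ := ihx
      obtain ⟨b, hb1, hb2⟩ := ihy
      exact ⟨a * b, by rw [map_mul, ha1, hb1], Submonoid.mul_mem _ ha2 hb2⟩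
  choose T' hT1 hT2 using hex
  obtain ⟨f, hf, hfF⟩ : ∃ f ∈ Algebra.adjoin ℚ (Set.range T'),
      rename (eA Δ L0 Ps) f = F := by
    have h1 : Set.range T = (rename (eA Δ L0 Ps) :
        MvPolynomial (Fin (nX Δ L0 + (nL Ps).length)) ℚ →ₐ[ℚ] MvPolynomial Vr ℚ) ''
          Set.range T' := by
      rw [← Set.range_comp]
      congr 1
      funext i
      exact (hT1 i).symm
    rw [h1, ← AlgHom.map_adjoin] at hF
    obtain ⟨f, hf, hfF⟩ := hF
    exact ⟨f, hf, hfF⟩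
  have hf0 : f ≠ 0 := by
    intro h0
    apply hne
    rw [← hfF, h0, map_zero]
  have hL : Un (LX Δ r L0) (LY k t Ps) ⊆ Un (LX' k Δ L0) (LY' k Ps) :=
    Set.union_subset_union (Set.image_mono (LX_sub k Δ r L0)) (Set.image_mono (LY_sub k t Ps))
  have hz : (0 : MvPolynomial (Fin (nX Δ L0 + (nL Ps).length)) ℚ) ∈
      Un (LX' k Δ L0) (LY' k Ps) := Or.inr ⟨0, zero_LY k Ps, map_zero _⟩
  have hH2 : H2 (Un (LX Δ r L0) (LY k t Ps)) (Un (LX' k Δ L0) (LY' k Ps)) k (t0 k r t) :=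
    un_H2 (LX_H2 k Δ r L0) (LY_H2 k t Ps)
  have hH1 : H1 (fun i => (C (vA κ k r t Δ L0 Ps i) : MvPolynomial PEmpty.{1} ℚ)) 0
      (Dc (Un (LX' k Δ L0) (LY' k Ps)) Δ) (minors κ k (t0 k r t) Δ) :=
    H1_of_NV (un_NV (LX_NV k r Δ (TT κ k r t Δ) L0 h0) (LY_NV k Δ (TT κ k r t Δ) Ps))
  have htr' : ∀ b : Finset (Fin N), AlgebraicIndepOn ℚ T' (b : Set (Fin N)) → b.card ≤ k := by
    intro b hb
    apply htr b
    have h1 : AlgebraicIndependent ℚ (fun i : (b : Set (Fin N)) => T' i) := hb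
    have h2 := h1.map' (f := (rename (eA Δ L0 Ps) :
      MvPolynomial (Fin (nX Δ L0 + (nL Ps).length)) ℚ →ₐ[ℚ] MvPolynomial Vr ℚ)) hinj
    have h3 : (fun i : (b : Set (Fin N)) => T i) =
        (rename (eA Δ L0 Ps) :
          MvPolynomial (Fin (nX Δ L0 + (nL Ps).length)) ℚ →ₐ[ℚ] MvPolynomial Vr ℚ) ∘
          (fun i : (b : Set (Fin N)) => T' i) := by
      funext i
      exact (hT1 i).symm
    show AlgebraicIndependent ℚ (fun i : (b : Set (Fin N)) => T i)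
    rw [h3]
    exact h2
  have key := occ_hit (σ := PEmpty.{1}) (k := k) (κ := κ) (Δ := Δ) (t₀ := t0 k r t) (c := 0)
    (fun i => (C (vA κ k r t Δ L0 Ps i) : MvPolynomial PEmpty.{1} ℚ)) _ _ hL hz hH2 hH1
    T' hT2 htr' f hf hf0
  rw [Nat.zero_add] at key
  obtain ⟨w, hw⟩ := exists_eval_ne_zero key
  rw [VF.eval_Phi] at hw
  simp only [eval_C] at hw
  exact ⟨f, _, hfF, hw⟩

end Pool.Agent.RPX
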