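import Pool.Agent.RPX.Sys
import Pool.Agent.RP.Pt
import Pool.Agent.Helper6.SP.Main

set_option autoImplicit false

/-!
RPX-Pt. The test points for the two kinds of variables.

Plan: `envX` is `envF` of `SP/Test.lean` and `ptY` is `ptZ` of `RP/Pt.lean`, with the positions `0, .., N - 1` of all variables, the variables of the first
kind first. `envX_eq`: as `lookE_envF`, `ptE_envF` in `SP/Main.lean` (names `nm` without repetitions: `names_nodup`; `vr_add`, `toQ_valF`, `valC`), the
product over the list is that over `Finset.univ.erase (Fin.castAdd _ i)` (`prod_erase`). `ptY_eq`: `ptZ_eq` with `n = a ++ b` (length `A + B`, cast of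
`Fin`), `List.getD` of `List.drop`, `List.getD` of `List.replicate .. ++ v`; the statement is about `Fin (a.length + b.length)`. FP: as `fp_envF` (`fp_valF`,
`fp_zipIdx`, `FP.range`), `fp_ptZ`, `FP.append`, `FP.drop`.
-/

namespace Pool.Agent.RPX

open MvPolynomial N487b59b3 N68a2faeb Pool.Agent.Helper22 Pool.Agent.Helper6.WB
  Pool.Agent.Helper6.SP Pool.Agent.RP Pool.Agent.PQ

variable {α : Type} [N487b59b3 α]

/-- the environment of the variables of the first kind; `n` is a unary number, the number of all
variables -/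
noncomputable def envX (E : ℕ) (L : Inp) (e : En) (n : List Bool) (zs : List ℕ) : En :=
  (names L).zipIdx.map fun q => (q.1, Pool.Agent.Helper6.SP.valF E ((e, (zs, List.range n.length)), q))

/-- the coordinates of the second kind; `a` and `b` are unary numbers of variables -/
def ptY (E : ℕ) (v : List ℕ) (a b : List Bool) (zs : List ℕ) : List ZZ :=
  (ptZ E ((a.map fun _ => 0) ++ v) (a ++ b) zs).drop a.length

theorem length_ptY (E : ℕ) (v : List ℕ) (a b : List Bool) (zs : List ℕ) :
    (ptY E v a b zs).length = b.length := by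
  rw [ptY, List.length_drop, length_ptZ, List.length_append]
  omega

private theorem lookE_envX (E : ℕ) (L : Inp) (e : En) (n : List Bool) (zs : List ℕ)
    (i : Fin (names L).length) :
    lookE (envX E L e n zs) (vr L i + 3) =
      Pool.Agent.Helper6.SP.valF E ((e, (zs, List.range n.length)), ((names L)[i.val], i.val)) := by
  rw [vr_add, lookE]
  apply lookE_aux
  · intro p hp hpi
    unfold envX at hp
    obtain ⟨q, hq, rfl⟩ := List.mem_map.mp hp
    simp only at hpi ⊢
    obtain ⟨c, j⟩ := q
    rw [List.mem_zipIdx_iff_getElem?] at hq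
    simp only at hpi
    subst hpi
    have h1 := List.getElem?_eq_some_iff.mp hq
    obtain ⟨h2, h3⟩ := h1
    have h4 := (names_nodup L).getElem_inj_iff.mp h3
    subst h4
    rfl
  · right
    refine ⟨((names L)[i.val], Pool.Agent.Helper6.SP.valF E ((e, (zs, List.range n.length)),
      ((names L)[i.val], i.val))), ?_, rfl⟩
    unfold envX
    rw [List.mem_map]
    refine ⟨((names L)[i.val], i.val), ?_, rfl⟩
    rw [List.mem_zipIdx_iff_getElem?]
    exact List.getElem?_eq_getElem i.2

theorem envX_eq (E : ℕ) (L : List (List Fm)) (e : En) (B : ℕ) (n : List Bool)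
    (hn : n.length = (names (cd L)).length + B) (z y : Fin E → ℕ) (i : Fin (names (cd L)).length) :
    ptE (envX E (cd L) e n (List.ofFn z ++ List.ofFn y)) (vr (cd L) i) = ptE e (vr (cd L) i) +
      ∑ l : Fin E, (z l : ℚ) * ∏ j ∈ Finset.univ.erase (Fin.castAdd B i),
        ((y l : ℚ) - (j.val : ℚ)) := by
  rw [ptE, lookE_envX, toQ_valF, valC, ptE, vr_add]
  congr 1
  apply Finset.sum_congr rfl
  intro l _
  have h1 : (List.ofFn z ++ List.ofFn y).getD l.val 0 = z l := by
    rw [List.getD_eq_getElem _ _ (by simp; omega),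
      List.getElem_append_left (by rw [List.length_ofFn]; exact l.2), List.getElem_ofFn]
  have h2 : (List.ofFn z ++ List.ofFn y).getD (E + l.val) 0 = y l := by
    rw [List.getD_eq_getElem _ _ (by simp),
      List.getElem_append_right (by rw [List.length_ofFn]; omega), List.getElem_ofFn]
    congr 1
    apply Fin.ext
    simp
  simp only [h1, h2]
  congr 1
  rw [hn]
  exact prod_erase _ (fun j => (y l : ℚ) - (j : ℚ)) (Fin.castAdd B i)

private theorem prod_cast {N M : ℕ} (h : N = M) (g : ℕ → ℚ) (i : Fin N) :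
    ∏ j ∈ Finset.univ.erase i, g j.val = ∏ j ∈ Finset.univ.erase (Fin.cast h i), g j.val := by
  subst h
  rfl

theorem ptY_eq (E : ℕ) (v : List ℕ) (a b : List Bool) (z y : Fin E → ℕ) (i : Fin b.length) :
    zq ((ptY E v a b (List.ofFn z ++ List.ofFn y)).getD i.val (0, 0)) = (v.getD i.val 0 : ℚ) +
      ∑ l : Fin E, (z l : ℚ) * ∏ j ∈ Finset.univ.erase (Fin.natAdd a.length i),
        ((y l : ℚ) - (j.val : ℚ)) := by
  have hlen : (a ++ b).length = a.length + b.length := List.length_append
  set i' : Fin (a ++ b).length := ⟨a.length + i.val, by rw [hlen]; omega⟩ with hi'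
  have h1 : (ptY E v a b (List.ofFn z ++ List.ofFn y)).getD i.val (0, 0) =
      (ptZ E ((a.map fun _ => 0) ++ v) (a ++ b) (List.ofFn z ++ List.ofFn y)).getD i'.val
        (0, 0) := by
    rw [ptY, List.getD_eq_getElem?_getD, List.getElem?_drop, ← List.getD_eq_getElem?_getD]
  have h2 : ((a.map fun _ => 0) ++ v).getD i'.val 0 = v.getD i.val 0 := by
    rw [List.getD_append_right _ _ _ _ (by rw [List.length_map, hi']; simp), List.length_map, hi']
    simp
  rw [h1, ptZ_eq, h2]
  congr 1
  refine Finset.sum_congr rfl fun l _ => ?_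
  congr 1
  rw [prod_cast hlen (fun j => (y l : ℚ) - (j : ℚ)) i']
  rfl

theorem fp_envX (E : ℕ) {L : α → Inp} {e : α → En} {n : α → List Bool} {zs : α → List ℕ}
    (hL : FP L) (he : FP e) (hn : FP n) (hz : FP zs) :
    FP fun a => envX E (L a) (e a) (n a) (zs a) := by
  have h0 : FP fun a => names (L a) := fp_names.comp hL
  have h1 : FP fun a => List.range (n a).length := FP.range hn
  have h2 : FP fun r : α × (ℕ × ℕ) =>
      ((e r.1, (zs r.1, List.range (n r.1).length)), r.2) :=
    FP.pair (FP.pair (he.comp FP.fst) (FP.pair (hz.comp FP.fst) (h1.comp FP.fst))) FP.snd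
  have h3 : FP fun r : α × (ℕ × ℕ) => ((r.2.1,
      Pool.Agent.Helper6.SP.valF E ((e r.1, (zs r.1, List.range (n r.1).length)), r.2)) :
        ℕ × El) :=
    FP.pair (FP.fst.comp FP.snd) ((fp_valF E).comp h2)
  exact fp_map (fp_zipIdx h0) h3

theorem fp_ptY (E : ℕ) {v : α → List ℕ} {a b : α → List Bool} {zs : α → List ℕ} (hv : FP v)
    (ha : FP a) (hb : FP b) (hz : FP zs) : FP fun x => ptY E (v x) (a x) (b x) (zs x) := by
  have h1 : FP fun x => (a x).map fun _ => (0 : ℕ) :=
    fp_map (h := fun _ : α × Bool => (0 : ℕ)) ha (FP.const 0)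
  exact FP.drop (fp_ptZ E (FP.append h1 hv) (FP.append ha hb) hz) ha

end Pool.Agent.RPX
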