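import Pool.Agent.RPX.Hit
import Pool.Agent.RPX.Pt
import Pool.Agent.RPX.CmpD

set_option autoImplicit false

/-!
RPX-Main. The algorithm and its correctness.

Plan: as `RP/Main.lean` (complete, copy and adapt): `L0C = fms p.2` (codes of the formulas at leaves; `fms (cdF L) = L0.map Fm.code` with
`L0 = L.flatten.flatMap fun c => c.2.1`), `X = (exists_extW Δ).choose (fms p.2)` (for the codes of `L0` it is `cd [extF Δ L0]`), base environment
`ptF k T (kX r Δ T) X` (`fp_ptF`), `T = TT κ k r t Δ`, `E = EE κ k r t Δ`, unary numbers `a = (names X).map (fun _ => true)` (`fp_names`), `b = nL (pgs p.2)`; the test for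
`zs ∈ lpow grid (E + E)`: `outQ ((envX E X (ptF ..) (a ++ b) zs, ptY E (bp k Δ T (pgs p.2)) a b zs), p) = 0`; `grid` = the numbers up to
`(a.length + b.length) * d + d`, `d = (dQ p).length` (unary products `FP.unMul`). Correctness: `outQ_eq`, `length_ptY`, `length_input`; `hit` with
`Occ.mono`, `totalDegree_cmpR`, `totalDegree_le_rename`-like bound for `rename (eA ..)` (injective; see `SP/H2.lean`), `hit_grid`, `envX_eq`, `ptY_eq`,
`eval_rename` and `Fin.addCases` on the coordinates (`Fin.append_left`, `Fin.append_right`, `nX`, `eX` unfold to `names`, `vr`).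
-/

namespace Pool.Agent.RPX

open MvPolynomial N487b59b3 N68a2faeb Pool.Agent.Helper22 Pool.Agent.Helper6.WB
  Pool.Agent.Helper6.SP Pool.Agent.RP Pool.Agent.PQ

/-! ## The algorithm -/

private theorem fp_pgs45 : FP pgs := by
  have h1 : FP fun L : List (List FacC) => L.flatten := fp_flatten FP.id
  have h2 : FP fun q : List (List FacC) × FacC => q.2.2.2 := FP.snd.comp (FP.snd.comp FP.snd)
  exact fp_flatMap h1 h2

private theorem fp_fms45 : FP fms := by
  have h1 : FP fun L : List (List FacC) => L.flatten := fp_flatten FP.id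
  have h2 : FP fun q : List (List FacC) × FacC => q.2.2.1 := FP.fst.comp (FP.snd.comp FP.snd)
  exact fp_flatMap h1 h2

private theorem fp_toks45 : FP toks1 := by
  have h1 : FP fun L : List (List FacC) => L.flatten := fp_flatten FP.id
  have h2 : FP fun q : List (List FacC) × FacC => q.2.1 := FP.fst.comp FP.snd
  exact fp_flatMap h1 h2

private theorem fp_ps45 : FP fun p : Wd × List (List FacC) => pgs p.2 := fp_pgs45.comp FP.snd

private theorem fp_dL45 : FP dL := by
  have h1 : FP fun L : List (List FacC) => (fms L).flatten.map fun t =>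
      (fun _ : List (List FacC) × (ℕ × ℚ) => true) (L, t) :=
    fp_map (fp_flatten fp_fms45) (FP.const true)
  exact FP.append h1 (FP.unMul (fp_nL.comp fp_pgs45) (fp_DL.comp fp_pgs45))

private theorem fp_dQ45 : FP dQ := by
  have h1 : FP fun p : Wd × List (List FacC) => p.1.map fun t =>
      (fun _ : (Wd × List (List FacC)) × (ℕ × ℚ) => true) (p, t) :=
    fp_map FP.fst (FP.const true)
  have h2 : FP fun p : Wd × List (List FacC) => (toks1 p.2).map fun t =>
      (fun _ : (Wd × List (List FacC)) × (ℕ × ℚ) => true) (p, t) :=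
    fp_map (fp_toks45.comp FP.snd) (FP.const true)
  exact FP.unMul h1 (FP.unMul h2 (fp_dL45.comp FP.snd))

/-- the codes of the formulas and of their derivatives -/
private noncomputable def xW (Δ : ℕ) (p : Wd × List (List FacC)) : Inp :=
  (exists_extW Δ).choose (fms p.2)

private theorem fp_xW (Δ : ℕ) : FP (xW Δ) :=
  (exists_extW Δ).choose_spec.1.comp (fp_fms45.comp FP.snd)

/-- the number of the variables of the first kind -/
private noncomputable def aU (Δ : ℕ) (p : Wd × List (List FacC)) : List Bool :=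
  (names (xW Δ p)).map fun _ => true

private theorem fp_aU (Δ : ℕ) : FP (aU Δ) := by
  have h1 : FP fun p : Wd × List (List FacC) => names (xW Δ p) := fp_names.comp (fp_xW Δ)
  have h2 : FP fun p : Wd × List (List FacC) => (names (xW Δ p)).map fun t =>
      (fun _ : (Wd × List (List FacC)) × ℕ => true) (p, t) := fp_map h1 (FP.const true)
  exact h2

/-- the values of the seeds -/
private noncomputable def grd (Δ : ℕ) (p : Wd × List (List FacC)) : List ℕ :=
  List.range (true :: (un ((aU Δ p ++ nL (pgs p.2)).length * (dQ p).length) ++ dQ p)).length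

private theorem mem_grd {Δ : ℕ} {p : Wd × List (List FacC)} {v : ℕ} : v ∈ grd Δ p ↔
    v ≤ ((aU Δ p).length + (nL (pgs p.2)).length) * (dQ p).length + (dQ p).length := by
  unfold grd
  rw [List.mem_range]
  simp only [List.length_cons, List.length_append, Helper22.un_length]
  omega

private theorem fp_grd (Δ : ℕ) : FP (grd Δ) := by
  have h1 := FP.unMul (FP.append (fp_aU Δ) (fp_nL.comp fp_ps45)) fp_dQ45
  exact FP.range (FP.cons (FP.const true) (FP.append h1 fp_dQ45))

/-- the test points -/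
private noncomputable def tpt (κ k r t Δ : ℕ) (p : Wd × List (List FacC)) (zs : List ℕ) :
    En × List ZZ :=
  (envX (EE κ k r t Δ) (xW Δ p)
      (ptF k (TT κ k r t Δ) (kX r Δ (TT κ k r t Δ)) (xW Δ p))
      (aU Δ p ++ nL (pgs p.2)) zs,
    ptY (EE κ k r t Δ) (bp k Δ (TT κ k r t Δ) (pgs p.2)) (aU Δ p) (nL (pgs p.2)) zs)

private theorem fp_tpt (κ k r t Δ : ℕ) :
    FP fun q : (Wd × List (List FacC)) × List ℕ => tpt κ k r t Δ q.1 q.2 := by
  have h0 : FP fun q : (Wd × List (List FacC)) × List ℕ => pgs q.1.2 := fp_ps45.comp FP.fst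
  have hx : FP fun q : (Wd × List (List FacC)) × List ℕ => xW Δ q.1 := (fp_xW Δ).comp FP.fst
  have ha : FP fun q : (Wd × List (List FacC)) × List ℕ => aU Δ q.1 := (fp_aU Δ).comp FP.fst
  have hb : FP fun q : (Wd × List (List FacC)) × List ℕ => nL (pgs q.1.2) := fp_nL.comp h0
  have he : FP fun q : (Wd × List (List FacC)) × List ℕ =>
      ptF k (TT κ k r t Δ) (kX r Δ (TT κ k r t Δ)) (xW Δ q.1) :=
    (fp_ptF k (TT κ k r t Δ) (kX r Δ (TT κ k r t Δ))).comp hx
  have hv : FP fun q : (Wd × List (List FacC)) × List ℕ =>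
      bp k Δ (TT κ k r t Δ) (pgs q.1.2) := (fp_bp k Δ (TT κ k r t Δ)).comp h0
  exact FP.pair (fp_envX (EE κ k r t Δ) hx he (FP.append ha hb) FP.snd)
    (fp_ptY (EE κ k r t Δ) hv ha hb FP.snd)

/-- the decision algorithm -/
private noncomputable def dec (κ k r t Δ : ℕ) (p : Wd × List (List FacC)) : Bool :=
  !((lpow (grd Δ p) (EE κ k r t Δ + EE κ k r t Δ)).any fun zs =>
    !(decide (outQ (tpt κ k r t Δ p zs, p) = 0)))

private theorem fp_dec (κ k r t Δ : ℕ) : FP (dec κ k r t Δ) := by
  have h2 : FP fun q : (Wd × List (List FacC)) × List ℕ =>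
      !(decide (outQ (tpt κ k r t Δ q.1 q.2, q.1) = 0)) :=
    FP.not (fq_outQ.comp (FP.pair (fp_tpt κ k r t Δ) FP.fst)).eqZero
  exact FP.not (fp_any (fp_lpow (fp_grd Δ) (EE κ k r t Δ + EE κ k r t Δ)) h2)

private theorem dec_true (κ k r t Δ : ℕ) (p : Wd × List (List FacC)) :
    dec κ k r t Δ p = true ↔ ∀ zs ∈ lpow (grd Δ p) (EE κ k r t Δ + EE κ k r t Δ),
      outQ (tpt κ k r t Δ p zs, p) = 0 := by
  unfold dec
  rw [Bool.not_eq_true', Bool.eq_false_iff, ne_eq, List.any_eq_true]
  push Not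
  constructor
  · intro h zs hzs
    have := h zs hzs
    simpa using this
  · intro h zs hzs
    have := h zs hzs
    simpa using this

/-! ## Correctness -/

/-- the formulas at the leaves -/
private def fL (L : List (List Fac)) : List Fm := L.flatten.flatMap fun c => c.2.1

private theorem mem_fL {L : List (List Fac)} {p : List Fac} (hp : p ∈ L) {c : Fac} (hc : c ∈ p)
    {g : Fm} (hg : g ∈ c.2.1) : g ∈ fL L :=
  List.mem_flatMap.2 ⟨c, List.mem_flatten.2 ⟨p, hp, hc⟩, hg⟩

private theorem fms_cdF (L : List (List Fac)) : fms (cdF L) = (fL L).map Fm.code := by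
  unfold fms cdF fL
  induction L with
  | nil => rfl
  | cons p L ih =>
    rw [List.map_cons, List.flatten_cons, List.flatMap_append, ih, List.flatten_cons,
      List.flatMap_append, List.map_append]
    congr 1
    induction p with
    | nil => rfl
    | cons c p ihp =>
      rw [List.map_cons, List.flatMap_cons, ihp, List.flatMap_cons, List.map_append]
      rfl

private theorem xW_cdF (Δ : ℕ) (Q : Fm) (L : List (List Fac)) :
    xW Δ (Q.code, cdF L) = cd [extF Δ (fL L)] := by
  unfold xW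
  rw [fms_cdF]
  exact (exists_extW Δ).choose_spec.2 (fL L)

private theorem mem_pgs {L : List (List Fac)} {p : List Fac} (hp : p ∈ L) {c : Fac} (hc : c ∈ p)
    {ρ : Rb} (hρ : ρ ∈ c.2.2) : ρ ∈ pgs (cdF L) := by
  unfold pgs
  refine List.mem_flatMap.2 ⟨facCode c, List.mem_flatten.2 ⟨p.map facCode, ?_, ?_⟩, hρ⟩
  · exact List.mem_map_of_mem hp
  · exact List.mem_map_of_mem hc

private theorem ptY_eq' (E : ℕ) (v : List ℕ) (a b : List Bool) {A : ℕ} (hA : a.length = A)
    (z y : Fin E → ℕ) (i : Fin b.length) :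
    zq ((ptY E v a b (List.ofFn z ++ List.ofFn y)).getD i.val (0, 0)) = (v.getD i.val 0 : ℚ) +
      ∑ l : Fin E, (z l : ℚ) * ∏ j ∈ Finset.univ.erase (Fin.natAdd A i),
        ((y l : ℚ) - (j.val : ℚ)) := by
  subst hA
  exact ptY_eq E v a b z y i

private theorem totalDegree_le_rename' {σ τ : Type*} (ρ : σ → τ) (hρ : Function.Injective ρ)
    (p : MvPolynomial σ ℚ) : p.totalDegree ≤ (rename ρ p).totalDegree := by
  rcases isEmpty_or_nonempty σ with h | h
  · have h1 : p.totalDegree = 0 := by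
      rw [totalDegree_eq_zero_iff]
      intro m _ x
      exact h.elim x
    rw [h1]
    exact Nat.zero_le _
  · have h1 : rename (Function.invFun ρ) (rename ρ p) = p := by
      rw [rename_rename, (Function.leftInverse_invFun hρ).comp_eq_id, rename_id_apply]
    conv_lhs => rw [← h1]
    exact totalDegree_rename_le _ _

private theorem outQ_pt (κ k r t Δ : ℕ) (zs : List ℕ) (Q : Fm) (L : List (List Fac)) :
    outQ (tpt κ k r t Δ (Q.code, cdF L) zs, (Q.code, cdF L)) =
      eval (Sum.elim (ptE (tpt κ k r t Δ (Q.code, cdF L) zs).1)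
        fun i => zq ((tpt κ k r t Δ (Q.code, cdF L) zs).2.getD i (0, 0))) (cmpR Q L) := by
  refine outQ_eq _ _ Q L fun g hg => ?_
  have h1 : (tpt κ k r t Δ (Q.code, cdF L) zs).2.length = (nL (pgs (cdF L))).length :=
    length_ptY _ _ _ _ _
  exact (length_input hg).trans h1.ge

private theorem tpt_eq (κ k r t Δ : ℕ) (Q : Fm) (L : List (List Fac))
    (z y : Fin (EE κ k r t Δ) → ℕ) (i : Fin (nX Δ (fL L) + (nL (pgs (cdF L))).length)) :
    Sum.elim (ptE (tpt κ k r t Δ (Q.code, cdF L) (List.ofFn z ++ List.ofFn y)).1)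
      (fun i => zq ((tpt κ k r t Δ (Q.code, cdF L) (List.ofFn z ++ List.ofFn y)).2.getD i (0, 0)))
      (eA Δ (fL L) (pgs (cdF L)) i) =
    vA κ k r t Δ (fL L) (pgs (cdF L)) i + ∑ l : Fin (EE κ k r t Δ),
      (z l : ℚ) * ∏ j ∈ Finset.univ.erase i, ((y l : ℚ) - (j.val : ℚ)) := by
  have hx := xW_cdF Δ Q L
  have hA : (aU Δ (Q.code, cdF L)).length = nX Δ (fL L) := by
    unfold aU
    rw [List.length_map, hx]
    rfl
  refine Fin.addCases (fun i => ?_) (fun i => ?_) i
  · have h1 : eA Δ (fL L) (pgs (cdF L)) (Fin.castAdd _ i) = Sum.inl (eX Δ (fL L) i) := by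
      unfold eA
      rw [Fin.addCases_left]
    have h2 : vA κ k r t Δ (fL L) (pgs (cdF L)) (Fin.castAdd _ i) =
        vX k r Δ (TT κ k r t Δ) (fL L) i := by
      unfold vA
      rw [Fin.append_left]
    rw [h1, h2, Sum.elim_inl]
    have h3 := envX_eq (EE κ k r t Δ) [extF Δ (fL L)]
      (ptF k (TT κ k r t Δ) (kX r Δ (TT κ k r t Δ)) (cd [extF Δ (fL L)]))
      (nL (pgs (cdF L))).length (aU Δ (Q.code, cdF L) ++ nL (pgs (cdF L)))
      (by rw [List.length_append, hA]; rfl) z y i
    unfold tpt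
    rw [hx]
    exact h3
  · have h1 : eA Δ (fL L) (pgs (cdF L)) (Fin.natAdd _ i) = Sum.inr i.val := by
      unfold eA
      rw [Fin.addCases_right]
    have h2 : vA κ k r t Δ (fL L) (pgs (cdF L)) (Fin.natAdd _ i) =
        vY k Δ (TT κ k r t Δ) (pgs (cdF L)) i := by
      unfold vA
      rw [Fin.append_right]
    rw [h1, h2, Sum.elim_inr]
    exact ptY_eq' (EE κ k r t Δ) (bp k Δ (TT κ k r t Δ) (pgs (cdF L)))
      (aU Δ (Q.code, cdF L)) (nL (pgs (cdF L))) hA z y i

private theorem grid45 {n E D : ℕ} (γ : Fin n → ℚ) (f : MvPolynomial (Fin n) ℚ)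
    (hD : f.totalDegree ≤ D) (s : Fin E ⊕ Fin E → ℚ)
    (hs : eval (fun i => γ i + Pool.Agent.Helper5.gen n E s i) f ≠ 0) :
    ∃ z y : Fin E → ℕ, (∀ l, z l ≤ D) ∧ (∀ l, y l ≤ n * D) ∧
      eval (fun i => γ i + ∑ l : Fin E, (z l : ℚ) *
        ∏ j ∈ Finset.univ.erase i, ((y l : ℚ) - (j.val : ℚ))) f ≠ 0 := by
  classical
  set fγ : MvPolynomial (Fin n) ℚ :=
    aeval (fun v => (X v + C (γ v) : MvPolynomial (Fin n) ℚ)) f with hfγ
  have hev : ∀ x : Fin n → ℚ, eval x fγ = eval (fun v => γ v + x v) f := by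
    intro x
    have h1 : (eval x).comp ((aeval (fun v => (X v + C (γ v) :
        MvPolynomial (Fin n) ℚ)) : MvPolynomial (Fin n) ℚ →ₐ[ℚ] _) :
            MvPolynomial (Fin n) ℚ →+* _) = eval (fun v => γ v + x v) := by
      apply VF.ringHom_ext_rat
      intro v
      simp [add_comm]
    exact congrArg (fun g => g f) h1
  have hdeg : fγ.totalDegree ≤ D := by
    refine (totalDegree_aeval_le _ (fun v => ?_) f).trans hD
    refine (totalDegree_add _ _).trans (max_le (totalDegree_X v).le ?_)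
    rw [totalDegree_C]
    exact Nat.zero_le _
  obtain ⟨a, ha, hea⟩ := Pool.Agent.Helper5.hit_grid fγ _ hdeg E ⟨s, by
    rw [hev]; exact hs⟩
  unfold Pool.Agent.Helper5.hittingSet at ha
  rw [Finset.mem_image] at ha
  obtain ⟨⟨z, y⟩, hzy, rfl⟩ := ha
  rw [Finset.mem_product, Fintype.mem_piFinset, Fintype.mem_piFinset] at hzy
  obtain ⟨hz, hy⟩ := hzy
  refine ⟨z, y, fun l => ?_, fun l => ?_, ?_⟩
  · have := hz l
    simp only [Finset.mem_range] at this
    omega
  · have := hy l
    simp only [Finset.mem_range] at this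
    omega
  · rw [hev] at hea
    exact hea

private theorem dec_correct (κ k r t Δ : ℕ) (Q : Fm) (L : List (List Fac))
    (hocc : ∀ p ∈ L, ∀ c ∈ p, Good κ k r t Δ c)
    (htr : ∀ b : Finset (Fin L.length), AlgebraicIndepOn ℚ
      (fun i => ((L.get i).map facPoly).prod) (b : Set (Fin L.length)) → b.card ≤ k) :
    dec κ k r t Δ (Q.code, cdF L) = true ↔ cmpR Q L = 0 := by
  classical
  rw [dec_true]
  constructor
  · intro h
    by_contra hne
    have h0 : ∀ g ∈ fL L, ∀ i, g.reads i ≤ r := by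
      intro g hg i
      obtain ⟨c, hc, hgc⟩ := List.mem_flatMap.1 hg
      obtain ⟨p, hp, hcp⟩ := List.mem_flatten.1 hc
      exact (hocc p hp c hcp).1 g hgc i
    have hT : ∀ i : Fin L.length, ((L.get i).map facPoly).prod ∈ Submonoid.closure
        {f | Occ κ (fun g => (∃ F ∈ fL L, g = rename Sum.inl F.poly) ∨
          ∃ ρ ∈ pgs (cdF L), Tame k t ρ ∧ g = rename Sum.inr (val ρ)) Δ f} := by
      intro i
      refine Submonoid.list_prod_mem _ fun x hx => ?_
      obtain ⟨c, hc, rfl⟩ := List.mem_map.1 hx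
      refine Submonoid.subset_closure ?_
      have hg := hocc _ (List.get_mem L i) c hc
      refine Occ.mono ?_ hg.2.2
      intro g hgl
      unfold leaves at hgl
      rcases List.mem_append.1 hgl with h1 | h1
      · obtain ⟨F, hF, rfl⟩ := List.mem_map.1 h1
        exact Or.inl ⟨F, mem_fL (List.get_mem L i) hc hF, rfl⟩
      · obtain ⟨ρ, hρ, rfl⟩ := List.mem_map.1 h1
        exact Or.inr ⟨ρ, mem_pgs (List.get_mem L i) hc hρ, hg.2.1 ρ hρ, rfl⟩
    obtain ⟨f, s, hf, hs⟩ := hit κ k r t Δ (fL L) (pgs (cdF L)) h0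
      (fun i : Fin L.length => ((L.get i).map facPoly).prod) hT htr (cmpR Q L)
      (cmpR_mem Q L) hne
    have hA : (aU Δ (Q.code, cdF L)).length = nX Δ (fL L) := by
      unfold aU
      rw [List.length_map, xW_cdF]
      rfl
    have hdeg : f.totalDegree ≤ (dQ (Q.code, cdF L)).length := by
      refine (totalDegree_le_rename' (eA Δ (fL L) (pgs (cdF L)))
        (eA_inj Δ (fL L) (pgs (cdF L))) f).trans ?_
      rw [hf]
      exact totalDegree_cmpR Q L
    obtain ⟨z, y, hz, hy, hne'⟩ := grid45 _ f hdeg s hs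
    have hnn : (aU Δ (Q.code, cdF L)).length + (nL (pgs (Q.code, cdF L).2)).length =
        nX Δ (fL L) + (nL (pgs (cdF L))).length := by
      rw [hA]
    have hzs : List.ofFn z ++ List.ofFn y ∈
        lpow (grd Δ (Q.code, cdF L)) (EE κ k r t Δ + EE κ k r t Δ) := by
      rw [mem_lpow]
      refine ⟨by rw [List.length_append, List.length_ofFn, List.length_ofFn], ?_⟩
      intro p hp
      rw [mem_grd, hnn]
      rcases List.mem_append.mp hp with hp | hp
      · obtain ⟨l, rfl⟩ := List.mem_ofFn.mp hp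
        have := hz l
        omega
      · obtain ⟨l, rfl⟩ := List.mem_ofFn.mp hp
        have := hy l
        omega
    have h2 := h _ hzs
    have h3 := outQ_pt κ k r t Δ (List.ofFn z ++ List.ofFn y) Q L
    rw [← hf, eval_rename] at h3
    apply hne'
    rw [← h2]
    refine Eq.trans ?_ h3.symm
    refine congrArg (fun x => eval x f) ?_
    funext i
    exact (tpt_eq κ k r t Δ Q L z y i).symm
  · intro h zs _
    have h3 := outQ_pt κ k r t Δ zs Q L
    rw [h, map_zero] at h3
    exact h3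

/-- **Main theorem.** -/
theorem main (κ k r t Δ : ℕ) : ∃ f : List (ℕ × ℚ) ×
      List (List (List (ℕ × ℚ) × (List (List (ℕ × ℚ)) × List Rb))) → Bool,
    N68a2faeb.IsPolyTime f ∧ ∀ (Q : Fm) (L : List (List Fac)),
      (∀ p ∈ L, ∀ c ∈ p, Good κ k r t Δ c) →
      (∀ b : Finset (Fin L.length), AlgebraicIndepOn ℚ
        (fun i => ((L.get i).map facPoly).prod) (b : Set (Fin L.length)) → b.card ≤ k) →
      (f (Q.code, L.map fun p => p.map facCode) = true ↔
        aeval (fun i => (L.map fun p => (p.map facPoly).prod).getD i 0) Q.poly = 0) := by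
  refine ⟨dec κ k r t Δ, (Pool.Agent.Helper22.isPolyTime_iff _).mpr (fp_dec κ k r t Δ), ?_⟩
  intro Q L hocc htr
  exact dec_correct κ k r t Δ Q L hocc htr

end Pool.Agent.RPX
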