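import Pool.Agent.Helper8.Occ.Main
import Pool.Agent.Helper6.SP.Hit

set_option autoImplicit false

/-!
RPX-Sys. DEFINITIONS: classes of leaves in two disjoint sets of variables.
-/

namespace Pool.Agent.RPX

open MvPolynomial

/-- the Jacobian minors of size at most `N` of members of `𝓒` do not vanish at the point `v` -/
def NV {m : ℕ} (v : Fin m → ℚ) (𝓒 : Set (MvPolynomial (Fin m) ℚ)) (N : ℕ) : Prop :=
  ∀ M ≤ N, ∀ a : Fin M → MvPolynomial (Fin m) ℚ, (∀ i, a i ∈ 𝓒) → ∀ J : Fin M → Fin m,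
    (Matrix.of fun i j => pderiv (J j) (a i)).det ≠ 0 →
      eval v (Matrix.of fun i j => pderiv (J j) (a i)).det ≠ 0

/-- the union of two classes, in disjoint sets of variables -/
def Un {m1 m2 : ℕ} (𝓐 : Set (MvPolynomial (Fin m1) ℚ)) (𝓑 : Set (MvPolynomial (Fin m2) ℚ)) :
    Set (MvPolynomial (Fin (m1 + m2)) ℚ) :=
  (fun f => rename (Fin.castAdd m2) f) '' 𝓐 ∪ (fun f => rename (Fin.natAdd m1) f) '' 𝓑

end Pool.Agent.RPX
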