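import Pool.Agent.RPX.Sys

set_option autoImplicit false

/-!
RPX-UnH2. Shifts of leaves in two disjoint sets of variables: the property `H2` is transported by
injective renamings of the variables, and holds for the union of two classes in disjoint sets of
variables.
-/

namespace Pool.Agent.RPX

open MvPolynomial Pool.Agent.Helper8.Occ
open Pool.Agent.Helper7 (shf coefSub coefSub_mono C_mem_coefSub shf_eq_C)

private theorem h2_list {m N r : ℕ} (e : Fin m → Fin N) (J : Fin r → Fin N) :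
    ∃ (r' : ℕ) (ι : Fin r' → Fin r) (J' : Fin r' → Fin m), r' ≤ r ∧ Function.Injective ι ∧
      (∀ j, e (J' j) = J (ι j)) ∧ ∀ j, J j ∈ Set.range e → j ∈ Set.range ι := by
  classical
  set T : Finset (Fin r) := Finset.univ.filter fun j => ∃ i, e i = J j with hT
  have hmem : ∀ j : Fin T.card, ((T.equivFin.symm j : T) : Fin r) ∈ T := fun j =>
    (T.equivFin.symm j).2
  have hex : ∀ j : Fin T.card, ∃ i, e i = J ((T.equivFin.symm j : T) : Fin r) := fun j =>
    (Finset.mem_filter.1 (hmem j)).2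
  choose J' hJ' using hex
  refine ⟨T.card, fun j => ((T.equivFin.symm j : T) : Fin r), J', ?_, ?_, hJ', ?_⟩
  · calc T.card ≤ (Finset.univ : Finset (Fin r)).card := Finset.card_le_univ T
      _ = r := by simp
  · intro i j hij
    exact T.equivFin.symm.injective (Subtype.ext hij)
  · rintro j ⟨i, hi⟩
    have hj : j ∈ T := Finset.mem_filter.2 ⟨Finset.mem_univ j, i, hi⟩
    exact ⟨T.equivFin ⟨j, hj⟩, by simp⟩

private theorem h2_hom {m N r r' : ℕ} (e : Fin m → Fin N) (he : Function.Injective e)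
    (J : Fin r → Fin N) (ι : Fin r' → Fin r) (J' : Fin r' → Fin m) (hι : Function.Injective ι)
    (hJ : ∀ j, e (J' j) = J (ι j)) (hr : ∀ j, J j ∈ Set.range e → j ∈ Set.range ι)
    (g : MvPolynomial (Fin m) ℚ) :
    shf J (rename e g) = rename ι (map (rename e : MvPolynomial (Fin m) ℚ →ₐ[ℚ]
      MvPolynomial (Fin N) ℚ).toRingHom (shf J' g)) := by
  have key : (shf J).comp (rename e) = (((rename ι : MvPolynomial (Fin r')
      (MvPolynomial (Fin N) ℚ) →ₐ[MvPolynomial (Fin N) ℚ] _).restrictScalars ℚ).comp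
      (mapAlgHom (rename e))).comp (shf J') := by
    refine algHom_ext fun v => ?_
    have h1 : shf J (rename e (X v)) = C (X (e v)) + ∑ j, if J j = e v then X j else 0 := by
      rw [rename_X, Pool.Agent.Helper7.shf_X]
    have h2 : rename ι (map (rename e : MvPolynomial (Fin m) ℚ →ₐ[ℚ]
        MvPolynomial (Fin N) ℚ).toRingHom (shf J' (X v))) =
        C (X (e v)) + ∑ j, if J' j = v then (X (ι j) : MvPolynomial (Fin r)
          (MvPolynomial (Fin N) ℚ)) else 0 := by
      rw [Pool.Agent.Helper7.shf_X, map_add, map_add, map_C, rename_C, map_sum, map_sum]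
      congr 1
      · congr 1
        exact rename_X e v
      · refine Finset.sum_congr rfl fun j _ => ?_
        split_ifs
        · rw [map_X, rename_X]
        · rw [map_zero, map_zero]
    have h3 : (∑ j, if J' j = v then (X (ι j) : MvPolynomial (Fin r)
          (MvPolynomial (Fin N) ℚ)) else 0) = ∑ j, if J j = e v then X j else 0 := by
      refine Fintype.sum_of_injective ι hι _ _ ?_ ?_
      · intro j hj
        rw [if_neg]
        intro hv
        exact hj (hr j ⟨v, hv.symm⟩)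
      · intro j
        rw [← hJ j]
        by_cases hv : J' j = v
        · rw [if_pos hv, if_pos (by rw [hv])]
        · rw [if_neg hv, if_neg fun h => hv (he h)]
    have h4 : shf J (rename e (X v)) = rename ι (map (rename e : MvPolynomial (Fin m) ℚ →ₐ[ℚ]
        MvPolynomial (Fin N) ℚ).toRingHom (shf J' (X v))) := by
      rw [h1, ← h3, ← h2]
    exact h4
  exact AlgHom.congr_fun key g

private theorem h2_coef {m N r r' : ℕ} (e : Fin m → Fin N) (ι : Fin r' → Fin r)
    (hι : Function.Injective ι) (A : Finset (MvPolynomial (Fin m) ℚ))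
    (A' : Finset (MvPolynomial (Fin N) ℚ)) (hA : ∀ a ∈ A, rename e a ∈ A')
    {p : MvPolynomial (Fin r') (MvPolynomial (Fin m) ℚ)}
    (hp : p ∈ coefSub (Algebra.adjoin ℚ (A : Set (MvPolynomial (Fin m) ℚ))) r') :
    rename ι (map (rename e : MvPolynomial (Fin m) ℚ →ₐ[ℚ]
      MvPolynomial (Fin N) ℚ).toRingHom p) ∈
      coefSub (Algebra.adjoin ℚ (A' : Set (MvPolynomial (Fin N) ℚ))) r := by
  intro M
  have h1 : Algebra.adjoin ℚ (A : Set (MvPolynomial (Fin m) ℚ)) ≤
      (Algebra.adjoin ℚ (A' : Set (MvPolynomial (Fin N) ℚ))).comap (rename e) := by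
    rw [Algebra.adjoin_le_iff]
    intro a ha
    exact Algebra.subset_adjoin (Finset.mem_coe.2 (hA a (Finset.mem_coe.1 ha)))
  by_cases hM : ∃ u : Fin r' →₀ ℕ, u.mapDomain ι = M
  · obtain ⟨u, rfl⟩ := hM
    rw [coeff_rename_mapDomain ι hι, coeff_map]
    exact h1 (hp u)
  · rw [coeff_rename_eq_zero ι _ M fun u hu => absurd ⟨u, hu⟩ hM]
    exact Subalgebra.zero_mem _

theorem h2_transport {m N k t : ℕ} (e : Fin m → Fin N) (he : Function.Injective e)
    {𝓐 𝓐' : Set (MvPolynomial (Fin m) ℚ)} (h : H2 𝓐 𝓐' k t) :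
    H2 ((fun f => rename e f) '' 𝓐) ((fun f => rename e f) '' 𝓐') k t := by
  classical
  rintro _ ⟨g, hg, rfl⟩ r hr J
  obtain ⟨r', ι, J', h1, h2, h3, h4⟩ := h2_list e J
  obtain ⟨A, hA1, hA2, hA3⟩ := h g hg r' (h1.trans hr) J'
  refine ⟨A.image fun f => rename e f, ?_, Finset.card_image_le.trans hA2, ?_⟩
  · intro a ha
    obtain ⟨b, hb, rfl⟩ := Finset.mem_image.1 ha
    exact ⟨b, hA1 b hb, rfl⟩
  · have h5 := h2_hom e he J ι J' h2 h3 h4 g
    have h6 := h2_coef (N := N) (r := r) e ι h2 A (A.image fun f => rename e f)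
      (fun a ha => Finset.mem_image_of_mem _ ha) hA3
    rw [← h5] at h6
    exact h6

theorem un_H2 {m1 m2 k t1 t2 : ℕ} {𝓐 𝓐' : Set (MvPolynomial (Fin m1) ℚ)}
    {𝓑 𝓑' : Set (MvPolynomial (Fin m2) ℚ)} (h1 : H2 𝓐 𝓐' k t1) (h2 : H2 𝓑 𝓑' k t2) :
    H2 (Un 𝓐 𝓑) (Un 𝓐' 𝓑') k (max t1 t2) := by
  have e1 : H2 ((fun f => rename (Fin.castAdd m2) f) '' 𝓐) (Un 𝓐' 𝓑') k (max t1 t2) :=
    (h2_transport (Fin.castAdd m2) (Fin.castAdd_injective m1 m2) h1).mono
      Set.subset_union_left (le_max_left t1 t2)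
  have e2 : H2 ((fun f => rename (Fin.natAdd m1) f) '' 𝓑) (Un 𝓐' 𝓑') k (max t1 t2) :=
    (h2_transport (Fin.natAdd m1) (Fin.natAdd_injective m2 m1) h2).mono
      Set.subset_union_right (le_max_right t1 t2)
  intro g hg
  rcases hg with hg | hg
  · exact e1 g hg
  · exact e2 g hg

end Pool.Agent.RPX
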